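import Pool.Agent.R13.Radii.Shell

/-! Dyadic chaining inside one block of radii. -/

open MeasureTheory Complex Real
open scoped RealInnerProductSpace ENNReal NNReal ComplexConjugate

set_option linter.unusedSectionVars false

namespace R13.Radii

/-- Level-`j` dyadic square sum of the increments of `u` on `[a, a+l]`. -/
noncomputable def dy (u : ℝ → ℂ) (a l : ℝ) (j : ℕ) : ℝ≥0∞ :=
  ∑ i ∈ Finset.range (2 ^ j), ‖u (a + l * ((i : ℝ) + 1) / 2 ^ j) - u (a + l * (i : ℝ) / 2 ^ j)‖ₑ ^ 2

/-- Weighted sum of the dyadic square sums. -/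
noncomputable def dyH (u : ℝ → ℂ) (a l : ℝ) : ℝ≥0∞ :=
  ∑' j : ℕ, ENNReal.ofReal ((4 / 3) ^ j) * dy u a l j

lemma geom34 (N : ℕ) : ∑ j ∈ Finset.range N, ((3:ℝ) / 4) ^ (j + 1) ≤ 4 := by
  have h : ∀ N : ℕ, ∑ j ∈ Finset.range N, ((3:ℝ) / 4) ^ (j + 1) = 3 - 3 * (3/4) ^ N := by
    intro N
    induction N with
    | zero => simp
    | succ n ih => rw [Finset.sum_range_succ, ih]; ring
  rw [h]
  have : (0:ℝ) ≤ (3/4) ^ N := by positivity
  linarith

lemma chain_abs (u : ℝ → ℂ) (hu : Continuous u) (a l : ℝ) (hl : 0 < l) (R : ℝ)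
    (hR : R ∈ Set.Ico a (a + l)) : ‖u R - u a‖ₑ ^ 2 ≤ 4 * dyH u a l := by
  set y : ℝ := (R - a) / l with hy
  have hy0 : 0 ≤ y := div_nonneg (by linarith [hR.1]) hl.le
  have hy1 : y < 1 := by rw [hy, div_lt_one hl]; linarith [hR.2]
  have hRy : R = a + l * y := by rw [hy]; field_simp; ring
  let m : ℕ → ℕ := fun j => ⌊y * 2 ^ j⌋₊
  let T : ℕ → ℝ := fun j => a + l * (m j : ℝ) / 2 ^ j
  have hm1 : ∀ j, (m j : ℝ) ≤ y * 2 ^ j := fun j => Nat.floor_le (by positivity)
  have hm2 : ∀ j, y * 2 ^ j < (m j : ℝ) + 1 := fun j => Nat.lt_floor_add_one _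
  have hmlt : ∀ j, m j < 2 ^ j := by
    intro j
    have h1 : (m j : ℝ) < 2 ^ j := lt_of_le_of_lt (hm1 j) (by
      have : (0:ℝ) < 2 ^ j := by positivity
      nlinarith)
    exact_mod_cast h1
  have hT0 : T 0 = a := by
    have : m 0 = 0 := by have := hmlt 0; simpa using this
    simp [T, this]
  have hTlim : Filter.Tendsto T Filter.atTop (nhds R) := by
    have h1 : ∀ j, |T j - R| ≤ l * (1/2) ^ j := by
      intro j
      have h2 : T j - R = - (l * ((y * 2 ^ j - m j) * (1/2)^j)) := by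
        rw [hRy]
        simp only [T]
        have : (2:ℝ)^j * (1/2)^j = 1 := by rw [← mul_pow]; norm_num
        have h3 : (1:ℝ) / 2 ^ j = (1/2)^j := by rw [div_pow, one_pow]
        rw [div_eq_mul_one_div, h3]
        linear_combination (l * y) * this
      rw [h2, abs_neg, abs_mul, abs_of_pos hl]
      apply mul_le_mul_of_nonneg_left _ hl.le
      rw [abs_mul, abs_of_nonneg (by linarith [hm1 j] : 0 ≤ y * 2 ^ j - m j),
        abs_of_nonneg (by positivity : (0:ℝ) ≤ (1/2)^j)]
      have : y * 2 ^ j - m j ≤ 1 := by linarith [hm2 j]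
      calc (y * 2 ^ j - m j) * (1/2)^j ≤ 1 * (1/2)^j :=
            mul_le_mul_of_nonneg_right this (by positivity)
        _ = _ := one_mul _
    rw [tendsto_iff_dist_tendsto_zero]
    have h1' : ∀ j, dist (T j) R ≤ l * (1/2) ^ j := fun j => by
      have := h1 j
      rwa [← Real.dist_eq] at this
    refine squeeze_zero (fun _ => dist_nonneg) h1' ?_
    have := (tendsto_pow_atTop_nhds_zero_of_lt_one (by norm_num : (0:ℝ) ≤ 1/2)
      (by norm_num : (1/2:ℝ) < 1)).const_mul l
    simpa using this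
  -- real version of the square sums
  let E : ℕ → ℝ := fun j => ∑ i ∈ Finset.range (2 ^ j),
    ‖u (a + l * ((i : ℝ) + 1) / 2 ^ j) - u (a + l * (i : ℝ) / 2 ^ j)‖ ^ 2
  have hE : ∀ j, dy u a l j = ENNReal.ofReal (E j) := by
    intro j
    simp only [dy, E]
    rw [ENNReal.ofReal_sum_of_nonneg (fun i _ => by positivity)]
    refine Finset.sum_congr rfl fun i _ => ?_
    rw [ENNReal.ofReal_pow (norm_nonneg _), ofReal_norm]
  have hE0 : ∀ j, 0 ≤ E j := fun j => Finset.sum_nonneg fun i _ => by positivity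
  have hd : ∀ j, ‖u (T (j+1)) - u (T j)‖ ^ 2 ≤ E (j+1) := by
    intro j
    have hcases : m (j+1) = 2 * m j ∨ m (j+1) = 2 * m j + 1 := by
      have a1 := hm1 j
      have a2 := hm2 j
      have b1 := hm1 (j+1)
      have b2 := hm2 (j+1)
      have e : y * 2 ^ (j+1) = 2 * (y * 2 ^ j) := by ring
      rw [e] at b1 b2
      have c1 : (m (j+1) : ℝ) < 2 * (m j : ℝ) + 2 := by linarith
      have c2 : 2 * (m j : ℝ) < (m (j+1) : ℝ) + 1 := by linarith
      have c1' : m (j+1) < 2 * m j + 2 := by exact_mod_cast c1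
      have c2' : 2 * m j < m (j+1) + 1 := by exact_mod_cast c2
      omega
    rcases hcases with h | h
    · have : T (j+1) = T j := by
        simp only [T, h]
        push_cast
        rw [pow_succ]
        field_simp
      rw [this]
      simpa using hE0 (j+1)
    · have h1 : T (j+1) = a + l * (((2 * m j : ℕ) : ℝ) + 1) / 2 ^ (j+1) := by
        simp only [T, h]
        push_cast
        ring
      have h2 : T j = a + l * ((2 * m j : ℕ) : ℝ) / 2 ^ (j+1) := by
        simp only [T]
        push_cast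
        rw [pow_succ]
        field_simp
      rw [h1, h2]
      have hmem : 2 * m j ∈ Finset.range (2 ^ (j+1)) := by
        rw [Finset.mem_range, pow_succ]
        have := hmlt j
        omega
      exact Finset.single_le_sum (f := fun i : ℕ =>
        ‖u (a + l * ((i : ℝ) + 1) / 2 ^ (j+1)) - u (a + l * (i : ℝ) / 2 ^ (j+1))‖ ^ 2)
        (fun i _ => by positivity) hmem
  have hN : ∀ N, ‖u (T N) - u a‖ ^ 2 ≤ 4 * ∑ j ∈ Finset.range N, (4/3) ^ (j+1) * E (j+1) := by
    intro N
    have h1 : ‖u (T N) - u a‖ ≤ ∑ j ∈ Finset.range N, ‖u (T (j+1)) - u (T j)‖ := by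
      have : u (T N) - u a = ∑ j ∈ Finset.range N, (u (T (j+1)) - u (T j)) := by
        rw [Finset.sum_range_sub (fun j => u (T j)), hT0]
      rw [this]
      exact norm_sum_le _ _
    have h2 : (∑ j ∈ Finset.range N, ‖u (T (j+1)) - u (T j)‖) ^ 2
        ≤ (∑ j ∈ Finset.range N, ((3:ℝ)/4) ^ (j+1)) *
          (∑ j ∈ Finset.range N, (4/3) ^ (j+1) * ‖u (T (j+1)) - u (T j)‖ ^ 2) := by
      apply Finset.sum_sq_le_sum_mul_sum_of_sq_le_mul
      · intro i _; positivity
      · intro i _; positivity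
      · intro i _
        apply le_of_eq
        rw [← mul_assoc, ← mul_pow]; norm_num
    have h3 : ∑ j ∈ Finset.range N, ((4:ℝ)/3) ^ (j+1) * ‖u (T (j+1)) - u (T j)‖ ^ 2
        ≤ ∑ j ∈ Finset.range N, (4/3) ^ (j+1) * E (j+1) :=
      Finset.sum_le_sum fun j _ => mul_le_mul_of_nonneg_left (hd j) (by positivity)
    calc ‖u (T N) - u a‖ ^ 2 ≤ (∑ j ∈ Finset.range N, ‖u (T (j+1)) - u (T j)‖) ^ 2 := by gcongr
      _ ≤ _ := h2
      _ ≤ 4 * ∑ j ∈ Finset.range N, (4/3) ^ (j+1) * E (j+1) := by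
        apply mul_le_mul (geom34 N) h3
        · exact Finset.sum_nonneg fun j _ => by positivity
        · norm_num
  have hN' : ∀ N, ‖u (T N) - u a‖ₑ ^ 2 ≤ 4 * dyH u a l := by
    intro N
    have e1 : ‖u (T N) - u a‖ₑ ^ 2 = ENNReal.ofReal (‖u (T N) - u a‖ ^ 2) := by
      rw [ENNReal.ofReal_pow (norm_nonneg _), ofReal_norm]
    rw [e1]
    refine (ENNReal.ofReal_le_ofReal (hN N)).trans ?_
    rw [ENNReal.ofReal_mul (by norm_num)]
    have e4 : ENNReal.ofReal 4 = 4 := by simp
    rw [e4]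
    gcongr
    rw [ENNReal.ofReal_sum_of_nonneg (fun i _ => mul_nonneg (by positivity) (hE0 _))]
    calc ∑ j ∈ Finset.range N, ENNReal.ofReal ((4/3) ^ (j+1) * E (j+1))
        = ∑ j ∈ Finset.range N, ENNReal.ofReal ((4/3) ^ (j+1)) * dy u a l (j+1) := by
          refine Finset.sum_congr rfl fun j _ => ?_
          rw [ENNReal.ofReal_mul (by positivity), hE]
      _ ≤ ∑ j ∈ Finset.range (N+1), ENNReal.ofReal ((4/3) ^ j) * dy u a l j := by
          rw [Finset.sum_range_succ']
          exact le_self_add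
      _ ≤ dyH u a l := ENNReal.sum_le_tsum _
  have hlim : Filter.Tendsto (fun N => ‖u (T N) - u a‖ₑ ^ 2) Filter.atTop
      (nhds (‖u R - u a‖ₑ ^ 2)) := by
    have c1 : Filter.Tendsto (fun N => u (T N) - u a) Filter.atTop (nhds (u R - u a)) :=
      ((hu.tendsto R).comp hTlim).sub_const _
    exact (ENNReal.continuous_pow 2).continuousAt.tendsto.comp
      ((continuous_enorm.tendsto _).comp c1)
  exact le_of_tendsto' hlim hN'

variable {V : Type*} [NormedAddCommGroup V] [InnerProductSpace ℝ V] [FiniteDimensional ℝ V]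
  [MeasurableSpace V] [BorelSpace V]

/-- `S_R` on the frequency side: `∫_{‖ξ‖≤R} e^{2π i x·ξ} g(ξ) dξ`. -/
noncomputable def ballInt (g : V → ℂ) (R : ℝ) (x : V) : ℂ :=
  ∫ ξ in Metric.closedBall (0:V) R, chr x ξ * g ξ

lemma ballInt_eq_ext (g : V → ℂ) (R : ℝ) (x : V) :
    ballInt g R x = ext ((Metric.closedBall (0:V) R).indicator g) x := by
  unfold ballInt ext
  rw [← integral_indicator Metric.isClosed_closedBall.measurableSet]
  congr 1
  funext ξ
  by_cases h : ξ ∈ Metric.closedBall (0:V) R <;> simp [h]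

lemma memLp_indicator_integrable {g : V → ℂ} (hg : MemLp g 2 (volume : Measure V)) {A : Set V}
    (hA : MeasurableSet A) (hf : volume A ≠ ∞) : Integrable (A.indicator g) := by
  rw [integrable_indicator_iff hA]
  have : IsFiniteMeasure (volume.restrict A : Measure V) := ⟨by
    rw [Measure.restrict_apply_univ]; exact lt_top_iff_ne_top.2 hf⟩
  exact (hg.restrict A).integrable (by norm_num)

lemma shell_finite (a b : ℝ) : volume (shell V a b) ≠ ∞ :=
  ((measure_mono (shell_subset_ball a b)).trans_lt measure_closedBall_lt_top).ne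

lemma ballInt_sub {g : V → ℂ} (hg : MemLp g 2 (volume : Measure V)) {a b : ℝ} (hab : a ≤ b) (x : V) :
    ballInt g b x - ballInt g a x = ext ((shell V a b).indicator g) x := by
  rw [ballInt_eq_ext, ballInt_eq_ext]
  unfold ext
  have hb := memLp_indicator_integrable hg (A := Metric.closedBall (0:V) b)
    Metric.isClosed_closedBall.measurableSet measure_closedBall_lt_top.ne
  have ha := memLp_indicator_integrable hg (A := Metric.closedBall (0:V) a)
    Metric.isClosed_closedBall.measurableSet measure_closedBall_lt_top.ne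
  rw [← integral_sub (integrable_chr_mul hb x) (integrable_chr_mul ha x)]
  congr 1
  funext ξ
  by_cases h1 : ‖ξ‖ ≤ b
  · by_cases h2 : ‖ξ‖ ≤ a
    · simp [shell, h1, h2, not_lt.2 h2]
    · simp [shell, h1, h2, not_le.1 h2]
  · have h2 : ¬ ‖ξ‖ ≤ a := fun h => h1 (h.trans hab)
    simp [shell, h1, h2]

lemma shell_l2 (hd : 1 ≤ Module.finrank ℝ V) {g : V → ℂ} (hg : MemLp g 2 (volume : Measure V))
    {a b : ℝ} (ha : 0 ≤ a) (hab : a ≤ b) :
    ∫⁻ x, ‖ballInt g b x - ballInt g a x‖ₑ ^ 2 * ENNReal.ofReal (gw x)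
      ≤ 2 * ENNReal.ofReal (shellConst V * (b - a)) * ∫⁻ ξ in shell V a b, ‖g ξ‖ₑ ^ 2 := by
  simp_rw [ballInt_sub hg hab]
  refine (local_est (memLp_indicator_integrable hg (measurableSet_shell a b) (shell_finite a b))
    (measurableSet_shell a b) (fun ξ hξ => Set.indicator_of_notMem hξ g)
    (fun ξ => shell_gauss hd ξ a b ha hab)).trans (le_of_eq ?_)
  congr 1
  rw [← lintegral_indicator (measurableSet_shell a b)]
  congr 1
  funext ξ
  by_cases h : ξ ∈ shell V a b <;> simp [h]

lemma shell_union {a b c : ℝ} (hab : a ≤ b) (hbc : b ≤ c) :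
    shell V a b ∪ shell V b c = shell V a c := by
  ext ξ
  simp only [shell, Set.mem_union, Set.mem_ofPred_eq]
  constructor
  · rintro (⟨h1, h2⟩ | ⟨h1, h2⟩)
    · exact ⟨h1, h2.trans hbc⟩
    · exact ⟨lt_of_le_of_lt hab h1, h2⟩
  · rintro ⟨h1, h2⟩
    rcases le_or_gt ‖ξ‖ b with h | h
    · exact Or.inl ⟨h1, h⟩
    · exact Or.inr ⟨h, h2⟩

lemma shell_disj (a b c : ℝ) : Disjoint (shell V a b) (shell V b c) := by
  rw [Set.disjoint_left]
  rintro ξ ⟨_, h2⟩ ⟨h3, _⟩
  exact absurd h3 (not_lt.2 h2)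

lemma sum_shell (t : ℕ → ℝ) (ht : Monotone t) (F : V → ℝ≥0∞) (N : ℕ) :
    ∑ i ∈ Finset.range N, ∫⁻ ξ in shell V (t i) (t (i+1)), F ξ = ∫⁻ ξ in shell V (t 0) (t N), F ξ := by
  induction N with
  | zero =>
    have : shell V (t 0) (t 0) = ∅ := by
      ext ξ; simp [shell]
    rw [this]; simp
  | succ n ih =>
    rw [Finset.sum_range_succ, ih, ← lintegral_union (measurableSet_shell _ _) (shell_disj _ _ _),
      shell_union (ht (Nat.zero_le n)) (ht (Nat.le_succ n))]

lemma continuous_ballInt_x {g : V → ℂ} (hg : MemLp g 2 (volume : Measure V)) (R : ℝ) :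
    Continuous (ballInt g R) := by
  have : ballInt g R = ext ((Metric.closedBall (0:V) R).indicator g) := by
    funext x; exact ballInt_eq_ext g R x
  rw [this]
  exact continuous_ext (memLp_indicator_integrable hg Metric.isClosed_closedBall.measurableSet
    measure_closedBall_lt_top.ne)

lemma continuous_ballInt_R [Nontrivial V] {g : V → ℂ} (hg : MemLp g 2 (volume : Measure V)) (x : V) :
    Continuous (fun R => ballInt g R x) := by
  rw [continuous_iff_continuousAt]
  intro R₀
  simp_rw [ballInt_eq_ext]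
  unfold ext
  have hb := memLp_indicator_integrable hg (A := Metric.closedBall (0:V) (R₀+1))
    Metric.isClosed_closedBall.measurableSet measure_closedBall_lt_top.ne
  refine continuousAt_of_dominated (bound := fun ξ => ‖(Metric.closedBall (0:V) (R₀+1)).indicator g ξ‖)
    ?_ ?_ hb.norm ?_
  · refine Filter.Eventually.of_forall fun R => ?_
    exact (integrable_chr_mul (memLp_indicator_integrable hg (A := Metric.closedBall (0:V) R)
      Metric.isClosed_closedBall.measurableSet measure_closedBall_lt_top.ne) x).aestronglyMeasurable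
  · filter_upwards [eventually_le_nhds (show R₀ < R₀ + 1 by linarith)] with R hR
    refine Filter.Eventually.of_forall fun ξ => ?_
    rw [norm_mul, norm_chr, one_mul]
    by_cases h : ξ ∈ Metric.closedBall (0:V) R
    · rw [Set.indicator_of_mem h, Set.indicator_of_mem (Metric.closedBall_subset_closedBall hR h)]
    · rw [Set.indicator_of_notMem h]; simp
  · have hs : (volume : Measure V) (Metric.sphere (0:V) R₀) = 0 := Measure.addHaar_sphere _ _ _
    have hae : ∀ᵐ ξ : V, ξ ∉ Metric.sphere (0:V) R₀ := measure_eq_zero_iff_ae_notMem.1 hs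
    filter_upwards [hae] with ξ hξ
    have hξ' : ‖ξ‖ ≠ R₀ := by simpa using hξ
    apply ContinuousAt.mul continuousAt_const
    rcases lt_or_gt_of_ne hξ' with h | h
    · have : (fun R : ℝ => (Metric.closedBall (0:V) R).indicator g ξ) =ᶠ[nhds R₀] fun _ => g ξ := by
        filter_upwards [eventually_gt_nhds h] with R hR
        exact Set.indicator_of_mem (by simpa using hR.le) g
      exact this.continuousAt
    · have : (fun R : ℝ => (Metric.closedBall (0:V) R).indicator g ξ) =ᶠ[nhds R₀] fun _ => 0 := by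
        filter_upwards [eventually_lt_nhds h] with R hR
        exact Set.indicator_of_notMem (by simpa using hR) g
      exact this.continuousAt

/-- Integrated dyadic sums over one block. -/
lemma dyH_l2 (hd : 1 ≤ Module.finrank ℝ V) {g : V → ℂ} (hg : MemLp g 2 (volume : Measure V))
    {a l : ℝ} (ha : 0 ≤ a) (hl : 0 ≤ l) :
    ∫⁻ x, dyH (fun R => ballInt g R x) a l * ENNReal.ofReal (gw x)
      ≤ 6 * ENNReal.ofReal (shellConst V * l) * ∫⁻ ξ in shell V a (a + l), ‖g ξ‖ₑ ^ 2 := by
  have hgm : Measurable (fun x : V => ENNReal.ofReal (gw x)) :=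
    (ENNReal.continuous_ofReal.comp continuous_gw).measurable
  have hmeas : ∀ R R' : ℝ, Measurable (fun x => ‖ballInt g R x - ballInt g R' x‖ₑ ^ 2) := by
    intro R R'
    exact (((continuous_ballInt_x hg R).sub (continuous_ballInt_x hg R')).enorm.measurable).pow_const 2
  have hK : 0 ≤ shellConst V := by
    unfold shellConst
    have := vb_nonneg (V := V)
    have := Real.pi_pos
    positivity
  unfold dyH
  simp_rw [← ENNReal.tsum_mul_right]
  have hdym : ∀ j, Measurable (fun x => dy (fun R => ballInt g R x) a l j) := by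
    intro j
    unfold dy
    exact Finset.measurable_sum _ fun i _ => hmeas _ _
  have hjm : ∀ j : ℕ, AEMeasurable (fun x => ENNReal.ofReal ((4/3) ^ j)
      * dy (fun R => ballInt g R x) a l j * ENNReal.ofReal (gw x)) volume :=
    fun j => (((hdym j).const_mul _).mul hgm).aemeasurable
  rw [lintegral_tsum hjm]
  set μ := ∫⁻ ξ in shell V a (a + l), ‖g ξ‖ₑ ^ 2 with hμ
  have hj : ∀ j : ℕ, ∫⁻ x, ENNReal.ofReal ((4/3) ^ j) * dy (fun R => ballInt g R x) a l j
      * ENNReal.ofReal (gw x) ≤ ENNReal.ofReal ((2/3) ^ j) * (2 * ENNReal.ofReal (shellConst V * l) * μ) := by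
    intro j
    have h1 : ∫⁻ x, ENNReal.ofReal ((4/3) ^ j) * dy (fun R => ballInt g R x) a l j
      * ENNReal.ofReal (gw x) = ENNReal.ofReal ((4/3) ^ j) * ∑ i ∈ Finset.range (2 ^ j),
        ∫⁻ x, ‖ballInt g (a + l * ((i : ℝ) + 1) / 2 ^ j) x - ballInt g (a + l * (i : ℝ) / 2 ^ j) x‖ₑ ^ 2
          * ENNReal.ofReal (gw x) := by
      have hmm : ∀ i ∈ Finset.range (2 ^ j), Measurable (fun x : V =>
          ‖ballInt g (a + l * ((i : ℝ) + 1) / 2 ^ j) x - ballInt g (a + l * (i : ℝ) / 2 ^ j) x‖ₑ ^ 2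
          * ENNReal.ofReal (gw x)) := fun i _ => (hmeas _ _).mul hgm
      rw [← lintegral_finsetSum _ hmm, ← lintegral_const_mul _ (Finset.measurable_fun_sum _ hmm)]
      congr 1
      funext x
      rw [mul_assoc]
      congr 1
      unfold dy
      rw [Finset.sum_mul]
    rw [h1]
    let t : ℕ → ℝ := fun i => a + l * (i : ℝ) / 2 ^ j
    have ht : Monotone t := by
      intro i k hik
      simp only [t]
      gcongr
    have h2 : ∀ i ∈ Finset.range (2 ^ j),
        ∫⁻ x, ‖ballInt g (a + l * ((i : ℝ) + 1) / 2 ^ j) x - ballInt g (a + l * (i : ℝ) / 2 ^ j) x‖ₑ ^ 2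
          * ENNReal.ofReal (gw x)
        ≤ 2 * ENNReal.ofReal (shellConst V * (l / 2 ^ j)) * ∫⁻ ξ in shell V (t i) (t (i+1)), ‖g ξ‖ₑ ^ 2 := by
      intro i _
      have e1 : a + l * ((i : ℝ) + 1) / 2 ^ j = t (i+1) := by simp [t]
      have e2 : a + l * (i : ℝ) / 2 ^ j = t i := rfl
      have e3 : t (i+1) - t i = l / 2 ^ j := by simp only [t]; push_cast; ring
      rw [e1, e2, ← e3]
      apply shell_l2 hd hg _ (ht (Nat.le_succ i))
      simp only [t]; positivity
    calc _ ≤ ENNReal.ofReal ((4/3) ^ j) * ∑ i ∈ Finset.range (2 ^ j),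
          2 * ENNReal.ofReal (shellConst V * (l / 2 ^ j)) * ∫⁻ ξ in shell V (t i) (t (i+1)), ‖g ξ‖ₑ ^ 2 := by
          gcongr with i hi
          exact h2 i hi
      _ = ENNReal.ofReal ((4/3) ^ j) * (2 * ENNReal.ofReal (shellConst V * (l / 2 ^ j)) * μ) := by
          rw [← Finset.mul_sum, sum_shell t ht]
          congr 2
          rw [hμ]
          congr 3
          · simp [t]
          · simp only [t]
            push_cast
            field_simp
      _ = ENNReal.ofReal ((2/3) ^ j) * (2 * ENNReal.ofReal (shellConst V * l) * μ) := by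
          have e : shellConst V * (l / 2 ^ j) = (1/2) ^ j * (shellConst V * l) := by
            rw [div_pow, one_pow]; ring
          rw [e, ENNReal.ofReal_mul (by positivity)]
          have e2 : ENNReal.ofReal ((2/3) ^ j) = ENNReal.ofReal ((4/3) ^ j) * ENNReal.ofReal ((1/2) ^ j) := by
            rw [← ENNReal.ofReal_mul (by positivity), ← mul_pow]; norm_num
          rw [e2]
          ring
  refine (ENNReal.tsum_le_tsum hj).trans ?_
  rw [ENNReal.tsum_mul_right]
  have hs : ∑' j : ℕ, ENNReal.ofReal ((2/3) ^ j) = 3 := by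
    rw [← ENNReal.ofReal_tsum_of_nonneg (fun j => by positivity)
      (summable_geometric_of_lt_one (by norm_num) (by norm_num)),
      tsum_geometric_of_lt_one (by norm_num) (by norm_num)]
    norm_num
  rw [hs]
  apply le_of_eq
  ring

end R13.Radii
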