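import Pool.Agent.R13.Radii.Sch

/-! Relatively dense sets of radii. -/

open MeasureTheory Complex Real
open scoped RealInnerProductSpace ENNReal NNReal ComplexConjugate SchwartzMap FourierTransform

set_option linter.unusedSectionVars false

namespace R13.Radii

variable {V : Type*} [NormedAddCommGroup V] [InnerProductSpace ℝ V] [FiniteDimensional ℝ V]
  [MeasurableSpace V] [BorelSpace V]

/-- Largest variation of the ball sums over pairs of radii at distance at most `L`. -/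
noncomputable def modc (g : V → ℂ) (L : ℝ) (x : V) : ℝ≥0∞ :=
  ⨆ R ∈ Set.Ici (0:ℝ), ⨆ R' ∈ Set.Icc R (R + L), ‖ballInt g R' x - ballInt g R x‖ₑ

lemma osc_end (hd : 1 ≤ Module.finrank ℝ V) {g : V → ℂ} (hg : MemLp g 2 (volume : Measure V))
    {r : ℕ → ℝ} (hr : StrictMono r) (x : V) (k : ℕ) :
    ‖ballInt g (r (k+1)) x - ballInt g (r k) x‖ₑ ≤ osc g r x := by
  have := finrank_pos_nontrivial hd
  have hc : Continuous (fun R => ‖ballInt g R x - ballInt g (r k) x‖ₑ) :=
    ((continuous_ballInt_R hg x).sub continuous_const).enorm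
  have hlt : r k < r (k+1) := hr (Nat.lt_succ_self k)
  have ht : Filter.Tendsto (fun R => ‖ballInt g R x - ballInt g (r k) x‖ₑ)
      (nhdsWithin (r (k+1)) (Set.Iio (r (k+1)))) (nhds ‖ballInt g (r (k+1)) x - ballInt g (r k) x‖ₑ) :=
    (hc.tendsto _).mono_left nhdsWithin_le_nhds
  refine le_of_tendsto ht ?_
  filter_upwards [Ico_mem_nhdsLT hlt] with R hR
  exact le_iSup_of_le k (le_iSup₂_of_le R hR le_rfl)

lemma osc_mem {g : V → ℂ} {r : ℕ → ℝ} (x : V) (k : ℕ) {R : ℝ} (hR : R ∈ Set.Ico (r k) (r (k+1))) :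
    ‖ballInt g R x - ballInt g (r k) x‖ₑ ≤ osc g r x :=
  le_iSup_of_le k (le_iSup₂_of_le R hR le_rfl)

lemma modc_le (hd : 1 ≤ Module.finrank ℝ V) {g : V → ℂ} (hg : MemLp g 2 (volume : Measure V))
    {L : ℝ} (hL : 0 < L) (x : V) : modc g L x ≤ 3 * osc g (fun k => (k:ℝ) * L) x := by
  set r : ℕ → ℝ := fun k => (k:ℝ) * L with hrdef
  have hr : StrictMono r := by
    intro i j hij
    simp only [hrdef]
    have : (i:ℝ) < j := by exact_mod_cast hij
    exact mul_lt_mul_of_pos_right this hL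
  have hr0 : r 0 = 0 := by simp [hrdef]
  have hrt : Filter.Tendsto r Filter.atTop Filter.atTop :=
    tendsto_natCast_atTop_atTop.atTop_mul_const hL
  refine iSup₂_le fun R hR => iSup₂_le fun R' hR' => ?_
  obtain ⟨k, hk⟩ := exists_block hr0 hrt (show 0 ≤ R from hR)
  have hstep : r (k+1) = r k + L := by simp only [hrdef]; push_cast; ring
  have hstep2 : r (k+2) = r (k+1) + L := by simp only [hrdef]; push_cast; ring
  have a1 : ‖ballInt g R x - ballInt g (r k) x‖ₑ ≤ osc g r x := osc_mem x k hk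
  rcases lt_or_ge R' (r (k+1)) with h | h
  · have a2 : ‖ballInt g R' x - ballInt g (r k) x‖ₑ ≤ osc g r x :=
      osc_mem x k ⟨hk.1.trans hR'.1, h⟩
    have e : ballInt g R' x - ballInt g R x
        = (ballInt g R' x - ballInt g (r k) x) - (ballInt g R x - ballInt g (r k) x) := by ring
    rw [e]
    calc _ ≤ ‖ballInt g R' x - ballInt g (r k) x‖ₑ + ‖ballInt g R x - ballInt g (r k) x‖ₑ :=
          enorm_sub_le
      _ ≤ osc g r x + osc g r x := add_le_add a2 a1
      _ = 2 * osc g r x := by ring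
      _ ≤ 3 * osc g r x := by gcongr; norm_num
  · have h2 : R' < r (k+2) := by
      rw [hstep2]
      have := hR'.2
      have := hk.2
      linarith
    have a2 : ‖ballInt g R' x - ballInt g (r (k+1)) x‖ₑ ≤ osc g r x := osc_mem x (k+1) ⟨h, h2⟩
    have a3 : ‖ballInt g (r (k+1)) x - ballInt g (r k) x‖ₑ ≤ osc g r x := osc_end hd hg hr x k
    have e : ballInt g R' x - ballInt g R x
        = ((ballInt g R' x - ballInt g (r (k+1)) x) + (ballInt g (r (k+1)) x - ballInt g (r k) x))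
          - (ballInt g R x - ballInt g (r k) x) := by ring
    rw [e]
    calc _ ≤ ‖(ballInt g R' x - ballInt g (r (k+1)) x)
          + (ballInt g (r (k+1)) x - ballInt g (r k) x)‖ₑ + ‖ballInt g R x - ballInt g (r k) x‖ₑ :=
          enorm_sub_le
      _ ≤ (‖ballInt g R' x - ballInt g (r (k+1)) x‖ₑ
          + ‖ballInt g (r (k+1)) x - ballInt g (r k) x‖ₑ) + ‖ballInt g R x - ballInt g (r k) x‖ₑ := by
          gcongr; exact enorm_add_le _ _
      _ ≤ (osc g r x + osc g r x) + osc g r x := by gcongr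
      _ = 3 * osc g r x := by ring

/-- **Variation estimate.** -/
theorem modc_ball (hd : 1 ≤ Module.finrank ℝ V) {g : V → ℂ} (hg : MemLp g 2 (volume : Measure V))
    {L ρ : ℝ} (hL : 0 < L) (hρ : 0 < ρ) :
    ∫⁻ x in Metric.closedBall (0:V) ρ, modc g L x ^ 2
      ≤ ENNReal.ofReal (216 * rexp π * shellConst V) * ENNReal.ofReal (L * ρ) * ∫⁻ ξ, ‖g ξ‖ₑ ^ 2 := by
  set r : ℕ → ℝ := fun k => (k:ℝ) * L with hrdef
  have hr : StrictMono r := by
    intro i j hij
    simp only [hrdef]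
    have : (i:ℝ) < j := by exact_mod_cast hij
    exact mul_lt_mul_of_pos_right this hL
  have hgap : ∀ k, r (k+1) - r k ≤ L := by
    intro k; simp only [hrdef]; push_cast; linarith
  have hK := shellConst_nonneg (V := V)
  calc ∫⁻ x in Metric.closedBall (0:V) ρ, modc g L x ^ 2
      ≤ ∫⁻ x in Metric.closedBall (0:V) ρ, 9 * osc g r x ^ 2 := by
        refine lintegral_mono fun x => ?_
        calc modc g L x ^ 2 ≤ (3 * osc g r x) ^ 2 := by gcongr; exact modc_le hd hg hL x
          _ = 9 * osc g r x ^ 2 := by rw [mul_pow]; norm_num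
    _ = 9 * ∫⁻ x in Metric.closedBall (0:V) ρ, osc g r x ^ 2 :=
        lintegral_const_mul' _ _ (by norm_num)
    _ ≤ 9 * (ENNReal.ofReal (24 * rexp π * shellConst V) * ENNReal.ofReal (L * ρ)
        * ∫⁻ ξ, ‖g ξ‖ₑ ^ 2) := by
        gcongr
        exact osc_ball hd hg hr (by simp [hrdef]) hgap hρ
    _ = _ := by
        have e : (216 : ℝ) * rexp π * shellConst V = 9 * (24 * rexp π * shellConst V) := by ring
        rw [e, ENNReal.ofReal_mul (by norm_num : (0:ℝ) ≤ 9)]
        have : ENNReal.ofReal 9 = 9 := by simp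
        rw [this]
        ring

/-- A set of radii that meets every interval `[a, a+L]`, `a ≥ 0`, for some `L`. -/
def RelDense (Λ : Set ℝ) : Prop := ∃ L : ℝ, ∀ a : ℝ, 0 ≤ a → ∃ R ∈ Λ, a ≤ R ∧ R ≤ a + L

lemma exists_seq {Λ : Set ℝ} (h : RelDense Λ) : ∃ (r : ℕ → ℝ) (L : ℝ), r 0 = 0 ∧ StrictMono r ∧
    (∀ k, r (k+1) - r k ≤ L) ∧ Filter.Tendsto r Filter.atTop Filter.atTop ∧ ∀ k, r (k+1) ∈ Λ := by
  obtain ⟨L, hL⟩ := h
  set M : ℝ := max L 1 with hM
  have hM1 : 1 ≤ M := le_max_right _ _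
  have hML : L ≤ M := le_max_left _ _
  have hex : ∀ k : ℕ, ∃ R ∈ Λ, 2 * (k:ℝ) * M ≤ R ∧ R ≤ 2 * (k:ℝ) * M + M := by
    intro k
    obtain ⟨R, h1, h2, h3⟩ := hL (2 * (k:ℝ) * M) (by positivity)
    exact ⟨R, h1, h2, by linarith⟩
  choose s hs1 hs2 hs3 using hex
  let r : ℕ → ℝ := fun k => if k = 0 then 0 else s k
  have hr0 : r 0 = 0 := by simp [r]
  have hrs : ∀ k, r (k+1) = s (k+1) := fun k => by simp [r]
  have lo : ∀ k : ℕ, 2 * (k:ℝ) * M ≤ r k := by
    intro k
    rcases k with _ | k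
    · simp [hr0]
    · rw [hrs]; exact hs2 _
  have hi : ∀ k : ℕ, r k ≤ 2 * (k:ℝ) * M + M := by
    intro k
    rcases k with _ | k
    · simp [hr0]; linarith
    · rw [hrs]; exact hs3 _
  refine ⟨r, 3 * M, hr0, ?_, ?_, ?_, fun k => by rw [hrs]; exact hs1 _⟩
  · apply strictMono_nat_of_lt_succ
    intro k
    have h1 := hi k
    have h2 := lo (k+1)
    push_cast at h2
    nlinarith
  · intro k
    have h1 := lo k
    have h2 := hi (k+1)
    push_cast at h2
    nlinarith
  · refine Filter.tendsto_atTop_mono (f := fun k : ℕ => (k:ℝ)) ?_ tendsto_natCast_atTop_atTop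
    intro k
    have h1 := lo k
    have : (0:ℝ) ≤ k := Nat.cast_nonneg k
    nlinarith

/-- **Almost everywhere convergence may be tested on a relatively dense set of radii.** -/
theorem ae_convergence_dense (hd : 1 ≤ Module.finrank ℝ V) {g : V → ℂ}
    (hg : MemLp g 2 (volume : Measure V)) {Λ : Set ℝ} (hΛ : RelDense Λ) :
    ∀ᵐ x : V, ∀ z : ℂ, Filter.Tendsto (fun R => ballInt g R x) Filter.atTop (nhds z) ↔
      Filter.Tendsto (fun R => ballInt g R x) (Filter.atTop ⊓ Filter.principal Λ) (nhds z) := by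
  obtain ⟨r, L, hr0, hr, hgap, hrt, hmem⟩ := exists_seq hΛ
  filter_upwards [ae_convergence hd hg hr hr0 hgap hrt] with x hx z
  refine ⟨fun h => h.mono_left inf_le_left, fun h => (hx z).2 (h.comp ?_)⟩
  rw [Filter.tendsto_inf]
  refine ⟨hrt, ?_⟩
  rw [Filter.tendsto_principal]
  filter_upwards [Filter.eventually_ge_atTop 1] with k hk
  obtain ⟨m, rfl⟩ : ∃ m, k = m + 1 := ⟨k - 1, by omega⟩
  exact hmem m

end R13.Radii
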