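import Mathlib

/-! Local (Gaussian-weighted) `L²` estimate for Fourier integrals supported in a thin set. -/

open MeasureTheory Complex Real
open scoped RealInnerProductSpace ENNReal NNReal ComplexConjugate

set_option linter.unusedSectionVars false

namespace R13.Radii

variable {V : Type*} [NormedAddCommGroup V] [InnerProductSpace ℝ V] [FiniteDimensional ℝ V]
  [MeasurableSpace V] [BorelSpace V]

/-- The character `e^{2π i x·ξ}`. -/
noncomputable def chr (x ξ : V) : ℂ := cexp (2 * π * I * (inner ℝ x ξ : ℝ))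

lemma norm_chr (x ξ : V) : ‖chr x ξ‖ = 1 := by
  unfold chr
  have : (2 * (π:ℂ) * I * ((inner ℝ x ξ : ℝ) : ℂ)) = ((2 * π * inner ℝ x ξ : ℝ) : ℂ) * I := by
    push_cast; ring
  rw [this, Complex.norm_exp_ofReal_mul_I]

lemma conj_chr (x ξ : V) : conj (chr x ξ) = chr x (-ξ) := by
  unfold chr
  rw [← Complex.exp_conj]
  congr 1
  simp [map_ofNat]

lemma chr_mul (x ξ η : V) : chr x ξ * chr x η = chr x (ξ + η) := by
  unfold chr
  rw [← Complex.exp_add]
  congr 1
  rw [inner_add_right]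
  push_cast
  ring

lemma continuous_chr : Continuous (fun p : V × V => chr p.1 p.2) := by
  unfold chr
  fun_prop

lemma continuous_chr_left (ξ : V) : Continuous (fun x : V => chr x ξ) := by
  unfold chr
  fun_prop

lemma continuous_chr_right (x : V) : Continuous (fun ξ : V => chr x ξ) := by
  unfold chr
  fun_prop

/-- The Gaussian `e^{-π‖x‖²}`. -/
noncomputable def gw (x : V) : ℝ := rexp (-π * ‖x‖ ^ 2)

lemma gw_pos (x : V) : 0 < gw x := Real.exp_pos _

lemma gw_le_one (x : V) : gw x ≤ 1 := by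
  unfold gw
  rw [Real.exp_le_one_iff]
  have := Real.pi_pos
  nlinarith [sq_nonneg ‖x‖, mul_nonneg this.le (sq_nonneg ‖x‖)]

lemma continuous_gw : Continuous (gw : V → ℝ) := by
  unfold gw; fun_prop

lemma integrable_gw : Integrable (gw : V → ℝ) := by
  have h := (GaussianFourier.integrable_cexp_neg_mul_sq_norm_add (V := V)
    (b := (π:ℂ)) (by simpa using Real.pi_pos) 0 0).norm
  refine h.congr (Filter.Eventually.of_forall fun x => ?_)
  simp only [gw, Complex.norm_exp]
  congr 1
  simp [← Complex.ofReal_pow]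

lemma integral_gw : ∫ x : V, gw x = 1 := by
  unfold gw
  rw [GaussianFourier.integral_rexp_neg_mul_sq_norm Real.pi_pos]
  rw [div_self Real.pi_pos.ne']
  simp

/-- Fourier transform of the Gaussian. -/
lemma integral_gw_chr (ξ : V) : ∫ x : V, (gw x : ℂ) * chr x ξ = (gw ξ : ℂ) := by
  have h := GaussianFourier.integral_cexp_neg_mul_sq_norm_add (V := V)
    (b := (π:ℂ)) (by simpa using Real.pi_pos) (2 * π * I) ξ
  have h1 : ∀ x : V, (gw x : ℂ) * chr x ξ = cexp (-(π:ℂ) * ‖x‖ ^ 2 + 2 * π * I * inner ℝ ξ x) := by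
    intro x
    unfold gw chr
    push_cast
    rw [← Complex.exp_add, real_inner_comm]
  simp_rw [h1]
  rw [h]
  have hpi : (π:ℂ) ≠ 0 := by exact_mod_cast Real.pi_pos.ne'
  rw [div_self hpi, Complex.one_cpow, one_mul]
  unfold gw
  push_cast
  congr 1
  field_simp
  ring_nf
  simp

/-- `∫ g(ξ) e^{2π i x·ξ} dξ`. -/
noncomputable def ext (h : V → ℂ) (x : V) : ℂ := ∫ ξ, chr x ξ * h ξ

lemma integrable_chr_mul {h : V → ℂ} (hi : Integrable h) (x : V) :
    Integrable (fun ξ => chr x ξ * h ξ) :=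
  hi.bdd_mul (c := 1) (continuous_chr_right x).aestronglyMeasurable
    (Filter.Eventually.of_forall fun ξ => (norm_chr x ξ).le)

lemma continuous_ext {h : V → ℂ} (hi : Integrable h) : Continuous (ext h) := by
  unfold ext
  refine continuous_of_dominated (bound := fun ξ => ‖h ξ‖) ?_ ?_ hi.norm ?_
  · intro x
    exact (integrable_chr_mul hi x).aestronglyMeasurable
  · intro x
    refine Filter.Eventually.of_forall fun ξ => ?_
    rw [norm_mul, norm_chr, one_mul]
  · refine Filter.Eventually.of_forall fun ξ => ?_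
    exact (continuous_chr_left ξ).mul continuous_const

lemma norm_ext_le {h : V → ℂ} (x : V) : ‖ext h x‖ ≤ ∫ ξ, ‖h ξ‖ := by
  unfold ext
  refine (norm_integral_le_integral_norm _).trans (le_of_eq ?_)
  congr 1
  funext ξ
  rw [norm_mul, norm_chr, one_mul]

/-- The quadratic form identity. -/
lemma ext_sq_identity {h : V → ℂ} (hi : Integrable h) :
    ((∫ x, ‖ext h x‖ ^ 2 * gw x : ℝ) : ℂ)
      = ∫ p : V × V, h p.1 * conj (h p.2) * (gw (p.1 - p.2) : ℂ) := by
  have e1 : ∀ x : V, (((‖ext h x‖ ^ 2 * gw x : ℝ)) : ℂ)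
      = ∫ p : V × V, (gw x : ℂ) * ((chr x p.1 * h p.1) * (conj (chr x p.2 * h p.2))) := by
    intro x
    rw [integral_const_mul]
    have h2 : ∫ p : V × V, (chr x p.1 * h p.1) * (conj (chr x p.2 * h p.2))
        = (∫ ξ, chr x ξ * h ξ) * ∫ η, conj (chr x η * h η) :=
      integral_prod_mul (μ := (volume : Measure V)) (ν := (volume : Measure V))
        (fun ξ => chr x ξ * h ξ) (fun η => conj (chr x η * h η))
    rw [h2, integral_conj]
    change _ = (gw x : ℂ) * (ext h x * conj (ext h x))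
    rw [Complex.mul_conj, Complex.normSq_eq_norm_sq]
    push_cast
    ring
  rw [← integral_complex_ofReal]
  simp_rw [e1]
  have hconj : Integrable (fun η => conj (h η)) := by
    exact (Complex.conjLIE : ℂ ≃ₗᵢ[ℝ] ℂ).toContinuousLinearEquiv.toContinuousLinearMap.integrable_comp hi
  have hint : Integrable (Function.uncurry fun (x : V) (p : V × V) =>
      (gw x : ℂ) * ((chr x p.1 * h p.1) * (conj (chr x p.2 * h p.2))))
      ((volume : Measure V).prod (volume : Measure (V × V))) := by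
    have h0 : Integrable (fun z : V × (V × V) => (gw z.1 : ℂ) * (h z.2.1 * conj (h z.2.2)))
        ((volume : Measure V).prod (volume : Measure (V × V))) := by
      have hp : Integrable (fun p : V × V => h p.1 * conj (h p.2)) (volume : Measure (V × V)) :=
        Integrable.mul_prod (μ := (volume : Measure V)) (ν := (volume : Measure V)) hi hconj
      exact Integrable.mul_prod (μ := (volume : Measure V)) (ν := (volume : Measure (V × V)))
        (f := fun x => (gw x : ℂ)) (integrable_gw.ofReal) hp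
    have h1 := h0.bdd_mul (f := fun z : V × (V × V) => chr z.1 z.2.1 * conj (chr z.1 z.2.2)) (c := 1)
      (by
        apply Continuous.aestronglyMeasurable
        have a1 : Continuous (fun z : V × (V × V) => chr z.1 z.2.1) :=
          continuous_chr.comp (by fun_prop : Continuous fun z : V × (V × V) => (z.1, z.2.1))
        have a2 : Continuous (fun z : V × (V × V) => chr z.1 z.2.2) :=
          continuous_chr.comp (by fun_prop : Continuous fun z : V × (V × V) => (z.1, z.2.2))
        exact a1.mul (Complex.continuous_conj.comp a2))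
      (Filter.Eventually.of_forall fun z => by
        rw [norm_mul, RCLike.norm_conj, norm_chr, norm_chr, one_mul])
    refine h1.congr (Filter.Eventually.of_forall fun z => ?_)
    simp only [Function.uncurry, map_mul]
    ring
  rw [integral_integral_swap hint]
  congr 1
  funext p
  have e2 : ∀ x : V, (gw x : ℂ) * ((chr x p.1 * h p.1) * (conj (chr x p.2 * h p.2)))
      = (h p.1 * conj (h p.2)) * ((gw x : ℂ) * chr x (p.1 - p.2)) := by
    intro x
    rw [map_mul, conj_chr, sub_eq_add_neg, ← chr_mul]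
    ring
  simp_rw [e2]
  rw [integral_const_mul, integral_gw_chr]

lemma ennreal_mul_le_sq (a b : ℝ≥0∞) : a * b ≤ a ^ 2 + b ^ 2 := by
  rcases le_total a b with h | h
  · calc a * b ≤ b * b := by gcongr
      _ = b ^ 2 := (sq b).symm
      _ ≤ a ^ 2 + b ^ 2 := le_add_self
  · calc a * b ≤ a * a := by gcongr
      _ = a ^ 2 := (sq a).symm
      _ ≤ a ^ 2 + b ^ 2 := le_self_add

/-- **Local estimate.** -/
theorem local_est {h : V → ℂ} (hi : Integrable h) {A : Set V} (hA : MeasurableSet A)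
    (h0 : ∀ ξ ∉ A, h ξ = 0) {M : ℝ≥0∞}
    (hM : ∀ ξ, ∫⁻ η in A, ENNReal.ofReal (gw (ξ - η)) ≤ M) :
    ∫⁻ x, ‖ext h x‖ₑ ^ 2 * ENNReal.ofReal (gw x) ≤ 2 * M * ∫⁻ ξ, ‖h ξ‖ₑ ^ 2 := by
  have e1 : ∫⁻ x, ‖ext h x‖ₑ ^ 2 * ENNReal.ofReal (gw x)
      = ENNReal.ofReal (∫ x, ‖ext h x‖ ^ 2 * gw x) := by
    rw [ofReal_integral_eq_lintegral_ofReal]
    · congr 1
      funext x
      rw [ENNReal.ofReal_mul (by positivity), ENNReal.ofReal_pow (norm_nonneg _), ofReal_norm]
    · refine integrable_gw.bdd_mul (c := (∫ ξ, ‖h ξ‖) ^ 2)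
        ((continuous_ext hi).norm.pow 2).aestronglyMeasurable
        (Filter.Eventually.of_forall fun x => ?_)
      rw [norm_pow, norm_norm]
      gcongr
      exact norm_ext_le x
    · exact Filter.Eventually.of_forall fun x => mul_nonneg (by positivity) (gw_pos x).le
  have e2 : ENNReal.ofReal (∫ x, ‖ext h x‖ ^ 2 * gw x)
      ≤ ∫⁻ p : V × V, ‖h p.1‖ₑ * ‖h p.2‖ₑ * ENNReal.ofReal (gw (p.1 - p.2)) := by
    have hn : 0 ≤ ∫ x, ‖ext h x‖ ^ 2 * gw x :=
      integral_nonneg fun x => mul_nonneg (by positivity) (gw_pos x).le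
    have h3 : ENNReal.ofReal (∫ x, ‖ext h x‖ ^ 2 * gw x)
        = ‖((∫ x, ‖ext h x‖ ^ 2 * gw x : ℝ) : ℂ)‖ₑ := by
      rw [← ofReal_norm, Complex.norm_real, Real.norm_of_nonneg hn]
    rw [h3, ext_sq_identity hi]
    refine (enorm_integral_le_lintegral_enorm _).trans (le_of_eq ?_)
    congr 1
    funext p
    rw [enorm_mul, enorm_mul]
    congr 1
    · congr 1
      rw [← ofReal_norm, RCLike.norm_conj, ofReal_norm]
    · rw [← ofReal_norm, Complex.norm_real, Real.norm_of_nonneg (gw_pos _).le]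
  rw [e1]
  refine e2.trans ?_
  have hm : AEMeasurable (fun ξ => ‖h ξ‖ₑ) := hi.aestronglyMeasurable.enorm
  have hgm : Measurable (fun p : V × V => ENNReal.ofReal (gw (p.1 - p.2))) :=
    (ENNReal.continuous_ofReal.comp (continuous_gw.comp (by fun_prop))).measurable
  have hgm' : Measurable (fun p : V × V => A.indicator (fun _ => (1:ℝ≥0∞)) p.2) :=
    (measurable_const.indicator hA).comp measurable_snd
  have hgm'' : Measurable (fun p : V × V => A.indicator (fun _ => (1:ℝ≥0∞)) p.1) :=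
    (measurable_const.indicator hA).comp measurable_fst
  have key : ∀ p : V × V, ‖h p.1‖ₑ * ‖h p.2‖ₑ * ENNReal.ofReal (gw (p.1 - p.2))
      ≤ ‖h p.1‖ₑ ^ 2 * (A.indicator (fun _ => (1:ℝ≥0∞)) p.2 * ENNReal.ofReal (gw (p.1 - p.2)))
        + ‖h p.2‖ₑ ^ 2 * (A.indicator (fun _ => (1:ℝ≥0∞)) p.1 * ENNReal.ofReal (gw (p.1 - p.2))) := by
    intro p
    by_cases h1 : p.1 ∈ A
    · by_cases h2 : p.2 ∈ A
      · rw [Set.indicator_of_mem h1, Set.indicator_of_mem h2, one_mul, ← add_mul]
        gcongr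
        exact ennreal_mul_le_sq _ _
      · simp [h0 _ h2]
    · simp [h0 _ h1]
  refine (lintegral_mono key).trans ?_
  have hm1 : AEMeasurable (fun p : V × V => ‖h p.1‖ₑ ^ 2) (volume : Measure (V × V)) :=
    (hm.pow_const 2).comp_fst
  have hm2 : AEMeasurable (fun p : V × V => ‖h p.2‖ₑ ^ 2) (volume : Measure (V × V)) :=
    (hm.pow_const 2).comp_snd
  have hA1 : AEMeasurable (fun p : V × V => ‖h p.1‖ₑ ^ 2 *
      (A.indicator (fun _ => (1:ℝ≥0∞)) p.2 * ENNReal.ofReal (gw (p.1 - p.2))))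
      (volume : Measure (V × V)) := hm1.mul (hgm'.mul hgm).aemeasurable
  have hA2 : AEMeasurable (fun p : V × V => ‖h p.2‖ₑ ^ 2 *
      (A.indicator (fun _ => (1:ℝ≥0∞)) p.1 * ENNReal.ofReal (gw (p.1 - p.2))))
      (volume : Measure (V × V)) := hm2.mul (hgm''.mul hgm).aemeasurable
  rw [lintegral_add_left' hA1]
  have a1 : ∫⁻ p : V × V, ‖h p.1‖ₑ ^ 2 * (A.indicator (fun _ => (1:ℝ≥0∞)) p.2
      * ENNReal.ofReal (gw (p.1 - p.2))) ≤ M * ∫⁻ ξ, ‖h ξ‖ₑ ^ 2 := by
    have hv : (volume : Measure (V × V)) = (volume : Measure V).prod (volume : Measure V) := rfl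
    rw [hv, lintegral_prod _ hA1]
    rw [mul_comm M, ← lintegral_mul_const'' _ (hm.pow_const 2)]
    refine lintegral_mono fun ξ => ?_
    change ∫⁻ η, ‖h ξ‖ₑ ^ 2 * (A.indicator (fun _ => (1:ℝ≥0∞)) η * ENNReal.ofReal (gw (ξ - η))) ≤ _
    rw [lintegral_const_mul']
    · gcongr
      refine le_trans (le_of_eq ?_) (hM ξ)
      rw [← lintegral_indicator hA]
      congr 1
      funext η
      by_cases hη : η ∈ A <;> simp [hη]
    · exact (ENNReal.pow_lt_top enorm_lt_top).ne
  have a2 : ∫⁻ p : V × V, ‖h p.2‖ₑ ^ 2 * (A.indicator (fun _ => (1:ℝ≥0∞)) p.1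
      * ENNReal.ofReal (gw (p.1 - p.2))) ≤ M * ∫⁻ ξ, ‖h ξ‖ₑ ^ 2 := by
    have hv : (volume : Measure (V × V)) = (volume : Measure V).prod (volume : Measure V) := rfl
    rw [hv, lintegral_prod_symm _ hA2]
    rw [mul_comm M, ← lintegral_mul_const'' _ (hm.pow_const 2)]
    refine lintegral_mono fun ξ => ?_
    change ∫⁻ η, ‖h ξ‖ₑ ^ 2 * (A.indicator (fun _ => (1:ℝ≥0∞)) η * ENNReal.ofReal (gw (η - ξ))) ≤ _
    rw [lintegral_const_mul']
    · gcongr
      refine le_trans (le_of_eq ?_) (hM ξ)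
      rw [← lintegral_indicator hA]
      congr 1
      funext η
      have : gw (η - ξ) = gw (ξ - η) := by unfold gw; rw [norm_sub_rev]
      by_cases hη : η ∈ A <;> simp [hη, this]
    · exact (ENNReal.pow_lt_top enorm_lt_top).ne
  refine (add_le_add a1 a2).trans (le_of_eq ?_)
  rw [mul_assoc, two_mul]

end R13.Radii
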