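import Pool.Agent.R13.Radii.Chain

/-! Summing the blocks; scaling. -/

open MeasureTheory Complex Real
open scoped RealInnerProductSpace ENNReal NNReal ComplexConjugate

set_option linter.unusedSectionVars false

namespace R13.Radii

lemma sq_le_imp {z y : ℝ≥0∞} (h : z ^ 2 ≤ y) : z ≤ y ^ (1/2 : ℝ) := by
  have h1 : z = (z ^ 2) ^ (1/2 : ℝ) := by
    rw [← ENNReal.rpow_natCast, ← ENNReal.rpow_mul]; norm_num
  rw [h1]
  exact ENNReal.rpow_le_rpow h (by norm_num)

lemma rpow_half_sq (y : ℝ≥0∞) : (y ^ (1/2 : ℝ)) ^ 2 = y := by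
  rw [← ENNReal.rpow_natCast, ← ENNReal.rpow_mul]; norm_num

variable {V : Type*} [NormedAddCommGroup V] [InnerProductSpace ℝ V] [FiniteDimensional ℝ V]
  [MeasurableSpace V] [BorelSpace V]

/-- Largest deviation of the ball sums from their values at the radii `r k`. -/
noncomputable def osc (g : V → ℂ) (r : ℕ → ℝ) (x : V) : ℝ≥0∞ :=
  ⨆ k : ℕ, ⨆ R ∈ Set.Ico (r k) (r (k+1)), ‖ballInt g R x - ballInt g (r k) x‖ₑ

/-- The dominating function. -/
noncomputable def Hs (g : V → ℂ) (r : ℕ → ℝ) (x : V) : ℝ≥0∞ :=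
  ∑' k : ℕ, dyH (fun R => ballInt g R x) (r k) (r (k+1) - r k)

lemma finrank_pos_nontrivial (hd : 1 ≤ Module.finrank ℝ V) : Nontrivial V :=
  Module.finrank_pos_iff.1 (Nat.lt_of_lt_of_le Nat.zero_lt_one hd)

lemma block_le (hd : 1 ≤ Module.finrank ℝ V) {g : V → ℂ} (hg : MemLp g 2 (volume : Measure V))
    {r : ℕ → ℝ} (hr : StrictMono r) (x : V) (k : ℕ) {R : ℝ} (hR : R ∈ Set.Ico (r k) (r (k+1))) :
    ‖ballInt g R x - ballInt g (r k) x‖ₑ ^ 2
      ≤ 4 * dyH (fun R => ballInt g R x) (r k) (r (k+1) - r k) := by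
  have := finrank_pos_nontrivial hd
  refine chain_abs (fun R => ballInt g R x) (continuous_ballInt_R hg x) (r k) (r (k+1) - r k)
    (sub_pos.2 (hr (Nat.lt_succ_self k))) R ?_
  simpa using hR

lemma osc_sq_le (hd : 1 ≤ Module.finrank ℝ V) {g : V → ℂ} (hg : MemLp g 2 (volume : Measure V))
    {r : ℕ → ℝ} (hr : StrictMono r) (x : V) : osc g r x ^ 2 ≤ 4 * Hs g r x := by
  have h1 : osc g r x ≤ (4 * Hs g r x) ^ (1/2 : ℝ) := by
    refine iSup_le fun k => iSup_le fun R => iSup_le fun hR => sq_le_imp ?_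
    refine (block_le hd hg hr x k hR).trans ?_
    gcongr
    exact ENNReal.le_tsum k
  calc osc g r x ^ 2 ≤ ((4 * Hs g r x) ^ (1/2 : ℝ)) ^ 2 := by gcongr
    _ = _ := rpow_half_sq _

lemma measurable_dyH {g : V → ℂ} (hg : MemLp g 2 (volume : Measure V)) (a l : ℝ) :
    Measurable (fun x => dyH (fun R => ballInt g R x) a l) := by
  have hmeas : ∀ R R' : ℝ, Measurable (fun x => ‖ballInt g R x - ballInt g R' x‖ₑ ^ 2) := by
    intro R R'
    exact (((continuous_ballInt_x hg R).sub (continuous_ballInt_x hg R')).enorm.measurable).pow_const 2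
  unfold dyH
  refine Measurable.tsum fun j => Measurable.const_mul ?_ _
  unfold dy
  exact Finset.measurable_fun_sum _ fun i _ => hmeas _ _

lemma measurable_Hs {g : V → ℂ} (hg : MemLp g 2 (volume : Measure V)) (r : ℕ → ℝ) :
    Measurable (Hs g r) := by
  unfold Hs
  exact Measurable.tsum fun k => measurable_dyH hg _ _

lemma shellConst_nonneg : 0 ≤ shellConst V := by
  unfold shellConst
  have := vb_nonneg (V := V)
  have := Real.pi_pos
  positivity

lemma Hs_l2 (hd : 1 ≤ Module.finrank ℝ V) {g : V → ℂ} (hg : MemLp g 2 (volume : Measure V))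
    {r : ℕ → ℝ} (hr : StrictMono r) (hr0 : 0 ≤ r 0) {L : ℝ} (hL : ∀ k, r (k+1) - r k ≤ L) :
    ∫⁻ x, Hs g r x * ENNReal.ofReal (gw x)
      ≤ 6 * ENNReal.ofReal (shellConst V * L) * ∫⁻ ξ, ‖g ξ‖ₑ ^ 2 := by
  have hgm : Measurable (fun x : V => ENNReal.ofReal (gw x)) :=
    (ENNReal.continuous_ofReal.comp continuous_gw).measurable
  unfold Hs
  simp_rw [← ENNReal.tsum_mul_right]
  have hkm : ∀ k : ℕ, AEMeasurable (fun x => dyH (fun R => ballInt g R x) (r k) (r (k+1) - r k)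
      * ENNReal.ofReal (gw x)) volume :=
    fun k => ((measurable_dyH hg _ _).mul hgm).aemeasurable
  rw [lintegral_tsum hkm]
  have hk : ∀ k : ℕ, ∫⁻ x, dyH (fun R => ballInt g R x) (r k) (r (k+1) - r k)
      * ENNReal.ofReal (gw x)
      ≤ 6 * ENNReal.ofReal (shellConst V * L) * ∫⁻ ξ in shell V (r k) (r (k+1)), ‖g ξ‖ₑ ^ 2 := by
    intro k
    have h0 : 0 ≤ r k := hr0.trans (hr.monotone (Nat.zero_le k))
    refine (dyH_l2 hd hg h0 (sub_nonneg.2 (hr.monotone (Nat.le_succ k)))).trans ?_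
    have e : r k + (r (k+1) - r k) = r (k+1) := by ring
    rw [e]
    gcongr
    · exact shellConst_nonneg
    · exact hL k
  refine (ENNReal.tsum_le_tsum hk).trans ?_
  rw [ENNReal.tsum_mul_left]
  gcongr
  refine ENNReal.tsum_le_of_sum_range_le fun N => ?_
  rw [sum_shell r hr.monotone]
  exact setLIntegral_le_lintegral _ _

/-- **Oscillation estimate with Gaussian weight.** -/
theorem osc_l2 (hd : 1 ≤ Module.finrank ℝ V) {g : V → ℂ} (hg : MemLp g 2 (volume : Measure V))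
    {r : ℕ → ℝ} (hr : StrictMono r) (hr0 : 0 ≤ r 0) {L : ℝ} (hL : ∀ k, r (k+1) - r k ≤ L) :
    ∫⁻ x, osc g r x ^ 2 * ENNReal.ofReal (gw x)
      ≤ 24 * ENNReal.ofReal (shellConst V * L) * ∫⁻ ξ, ‖g ξ‖ₑ ^ 2 := by
  have hgm : Measurable (fun x : V => ENNReal.ofReal (gw x)) :=
    (ENNReal.continuous_ofReal.comp continuous_gw).measurable
  calc ∫⁻ x, osc g r x ^ 2 * ENNReal.ofReal (gw x)
      ≤ ∫⁻ x, 4 * (Hs g r x * ENNReal.ofReal (gw x)) := by
        refine lintegral_mono fun x => ?_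
        rw [← mul_assoc]
        gcongr
        exact osc_sq_le hd hg hr x
    _ = 4 * ∫⁻ x, Hs g r x * ENNReal.ofReal (gw x) :=
        lintegral_const_mul _ ((measurable_Hs hg r).mul hgm)
    _ ≤ 4 * (6 * ENNReal.ofReal (shellConst V * L) * ∫⁻ ξ, ‖g ξ‖ₑ ^ 2) := by
        gcongr; exact Hs_l2 hd hg hr hr0 hL
    _ = _ := by
        rw [← mul_assoc, ← mul_assoc]; norm_num

/-- Almost everywhere, the block oscillations tend to `0`. -/
theorem ae_block_tendsto (hd : 1 ≤ Module.finrank ℝ V) {g : V → ℂ}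
    (hg : MemLp g 2 (volume : Measure V))
    {r : ℕ → ℝ} (hr : StrictMono r) (hr0 : 0 ≤ r 0) {L : ℝ} (hL : ∀ k, r (k+1) - r k ≤ L) :
    ∀ᵐ x : V, Filter.Tendsto
      (fun k => dyH (fun R => ballInt g R x) (r k) (r (k+1) - r k)) Filter.atTop (nhds 0) := by
  have hgm : Measurable (fun x : V => ENNReal.ofReal (gw x)) :=
    (ENNReal.continuous_ofReal.comp continuous_gw).measurable
  have hfin : ∫⁻ x, Hs g r x * ENNReal.ofReal (gw x) ≠ ∞ := by
    refine ne_top_of_le_ne_top ?_ (Hs_l2 hd hg hr hr0 hL)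
    refine ENNReal.mul_ne_top (ENNReal.mul_ne_top (by norm_num) ENNReal.ofReal_ne_top) ?_
    have := hg.eLpNorm_lt_top
    rw [eLpNorm_lt_top_iff_lintegral_rpow_enorm_lt_top (by norm_num) (by norm_num)] at this
    simpa using this.ne
  have := ae_lt_top ((measurable_Hs hg r).mul hgm) hfin
  filter_upwards [this] with x hx
  have hx' : Hs g r x ≠ ∞ := by
    intro h
    simp only [Pi.mul_apply] at hx
    rw [h, ENNReal.top_mul] at hx
    · exact lt_irrefl _ hx
    · exact (ENNReal.ofReal_pos.2 (gw_pos x)).ne'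
  exact ENNReal.tendsto_atTop_zero_of_tsum_ne_top hx'

lemma exists_block {r : ℕ → ℝ} (hr0 : r 0 = 0)
    (hrt : Filter.Tendsto r Filter.atTop Filter.atTop) {R : ℝ} (hR : 0 ≤ R) :
    ∃ k, R ∈ Set.Ico (r k) (r (k+1)) := by
  classical
  have hex : ∃ k, R < r k := (hrt.eventually_gt_atTop R).exists
  have hpos : Nat.find hex ≠ 0 := by
    intro h
    have := Nat.find_spec hex
    rw [h, hr0] at this
    linarith
  obtain ⟨m, hm⟩ := Nat.exists_eq_succ_of_ne_zero hpos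
  refine ⟨m, ?_, ?_⟩
  · have := Nat.find_min hex (m := m) (by omega)
    exact not_lt.1 this
  · have := Nat.find_spec hex
    rwa [hm] at this

/-- **Bounded gaps suffice for almost everywhere convergence.** -/
theorem ae_convergence (hd : 1 ≤ Module.finrank ℝ V) {g : V → ℂ}
    (hg : MemLp g 2 (volume : Measure V))
    {r : ℕ → ℝ} (hr : StrictMono r) (hr0 : r 0 = 0) {L : ℝ} (hL : ∀ k, r (k+1) - r k ≤ L)
    (hrt : Filter.Tendsto r Filter.atTop Filter.atTop) :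
    ∀ᵐ x : V, ∀ z : ℂ, Filter.Tendsto (fun R => ballInt g R x) Filter.atTop (nhds z) ↔
      Filter.Tendsto (fun k => ballInt g (r k) x) Filter.atTop (nhds z) := by
  filter_upwards [ae_block_tendsto hd hg hr hr0.ge hL] with x hx z
  refine ⟨fun h => h.comp hrt, fun h => ?_⟩
  rw [Metric.tendsto_atTop]
  intro ε hε
  have h1 : ∀ᶠ k in Filter.atTop, dist (ballInt g (r k) x) z < ε / 2 := by
    exact (Metric.tendsto_nhds.1 h) (ε/2) (by positivity)
  have h2 : ∀ᶠ k in Filter.atTop, 4 * dyH (fun R => ballInt g R x) (r k) (r (k+1) - r k)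
      < ENNReal.ofReal ((ε/2)^2) := by
    have : Filter.Tendsto (fun k => 4 * dyH (fun R => ballInt g R x) (r k) (r (k+1) - r k))
        Filter.atTop (nhds (4 * 0)) := ENNReal.Tendsto.const_mul hx (Or.inr (by norm_num))
    rw [mul_zero] at this
    exact this.eventually_lt_const (ENNReal.ofReal_pos.2 (by positivity))
  obtain ⟨K0, hK0⟩ := Filter.eventually_atTop.1 (h1.and h2)
  refine ⟨max 0 (r K0), fun R hR => ?_⟩
  obtain ⟨k, hk⟩ := exists_block hr0 hrt (le_trans (le_max_left _ _) hR)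
  have hkK : K0 ≤ k := by
    by_contra hcon
    push Not at hcon
    have : r (k+1) ≤ r K0 := hr.monotone hcon
    have := hk.2
    have := le_trans (le_max_right _ _) hR
    linarith
  obtain ⟨g1, g2⟩ := hK0 k hkK
  have h3 := (block_le hd hg hr x k hk).trans_lt g2
  have h4 : ‖ballInt g R x - ballInt g (r k) x‖ < ε / 2 := by
    rw [← ofReal_norm, ← ENNReal.ofReal_pow (norm_nonneg _)] at h3
    have := (ENNReal.ofReal_lt_ofReal_iff (by positivity)).1 h3
    exact lt_of_pow_lt_pow_left₀ 2 (by positivity) this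
  calc dist (ballInt g R x) z ≤ dist (ballInt g R x) (ballInt g (r k) x) + dist (ballInt g (r k) x) z :=
        dist_triangle _ _ _
    _ < ε/2 + ε/2 := by
        rw [dist_eq_norm (ballInt g R x)]
        exact add_lt_add h4 g1
    _ = ε := by ring

/-! ### Scaling -/

lemma ballInt_comp_smul (g : V → ℂ) {t : ℝ} (ht : 0 < t) {R : ℝ} (hR : 0 ≤ R) (x : V) :
    ballInt (fun ξ => g (t⁻¹ • ξ)) R x
      = ((t ^ Module.finrank ℝ V : ℝ) : ℂ) * ballInt g (R / t) (t • x) := by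
  unfold ballInt
  have h := Measure.setIntegral_comp_smul_of_pos volume
    (fun ξ => chr x (t • ξ) * g ξ) (Metric.closedBall (0:V) R) (inv_pos.2 ht)
  have h1 : ∀ ξ : V, chr x (t • t⁻¹ • ξ) * g (t⁻¹ • ξ) = chr x ξ * g (t⁻¹ • ξ) := by
    intro ξ
    rw [smul_smul, mul_inv_cancel₀ ht.ne', one_smul]
  simp only [h1] at h
  rw [h]
  rw [smul_closedBall _ _ hR, smul_zero, Real.norm_of_nonneg (inv_pos.2 ht).le]
  have h2 : ∀ ξ : V, chr x (t • ξ) = chr (t • x) ξ := by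
    intro ξ
    unfold chr
    rw [inner_smul_left, inner_smul_right]
    simp
  simp only [h2]
  rw [inv_pow, inv_inv, Complex.real_smul, ← div_eq_inv_mul]

lemma lintegral_comp_smul_pos (F : V → ℝ≥0∞) {t : ℝ} (ht : 0 < t) :
    ∫⁻ x, F (t • x) = ENNReal.ofReal ((t ^ Module.finrank ℝ V)⁻¹) * ∫⁻ x, F x := by
  have h : Measure.map (fun x : V => t • x) volume
      = ENNReal.ofReal |(t ^ Module.finrank ℝ V)⁻¹| • (volume : Measure V) :=
    Measure.map_addHaar_smul volume ht.ne'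
  let e : V ≃ᵐ V := (Homeomorph.smulOfNeZero t ht.ne').toMeasurableEquiv
  have h1 : ∫⁻ x, F (t • x) = ∫⁻ x, F x ∂(Measure.map (fun x : V => t • x) volume) := by
    have := lintegral_map_equiv (μ := (volume : Measure V)) F e
    exact this.symm
  rw [h1, h, lintegral_smul_measure, abs_of_pos (by positivity), smul_eq_mul]

lemma memLp_comp_smul {g : V → ℂ} (hg : MemLp g 2 (volume : Measure V)) {t : ℝ} (ht : 0 < t) :
    MemLp (fun ξ => g (t • ξ)) 2 (volume : Measure V) := by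
  refine ⟨?_, ?_⟩
  · have hq : Measure.QuasiMeasurePreserving (fun x : V => t • x) volume volume := by
      refine ⟨measurable_const_smul t, ?_⟩
      rw [Measure.map_addHaar_smul volume ht.ne']
      exact Measure.smul_absolutelyContinuous
    exact hg.aestronglyMeasurable.comp_quasiMeasurePreserving hq
  · rw [eLpNorm_lt_top_iff_lintegral_rpow_enorm_lt_top (by norm_num) (by norm_num)]
    have := hg.eLpNorm_lt_top
    rw [eLpNorm_lt_top_iff_lintegral_rpow_enorm_lt_top (by norm_num) (by norm_num)] at this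
    rw [lintegral_comp_smul_pos (fun ξ => ‖g ξ‖ₑ ^ (ENNReal.toReal 2)) ht]
    exact ENNReal.mul_lt_top ENNReal.ofReal_lt_top this

lemma osc_comp_smul (g : V → ℂ) {t : ℝ} (ht : 0 < t) {r : ℕ → ℝ} (hr0 : ∀ k, 0 ≤ r k) (x : V) :
    osc (fun ξ => g (t⁻¹ • ξ)) (fun k => t * r k) x
      = ENNReal.ofReal (t ^ Module.finrank ℝ V) * osc g r (t • x) := by
  unfold osc
  rw [ENNReal.mul_iSup]
  congr 1
  funext k
  have hc : ENNReal.ofReal (t ^ Module.finrank ℝ V)
      = ‖((t ^ Module.finrank ℝ V : ℝ) : ℂ)‖ₑ := by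
    rw [← ofReal_norm, Complex.norm_real, Real.norm_of_nonneg (by positivity)]
  have key : ∀ R : ℝ, 0 ≤ R → ‖ballInt (fun ξ => g (t⁻¹ • ξ)) (t * R) x
      - ballInt (fun ξ => g (t⁻¹ • ξ)) (t * r k) x‖ₑ
      = ENNReal.ofReal (t ^ Module.finrank ℝ V) * ‖ballInt g R (t • x) - ballInt g (r k) (t • x)‖ₑ := by
    intro R hR
    rw [ballInt_comp_smul g ht (by positivity), ballInt_comp_smul g ht (mul_nonneg ht.le (hr0 k)),
      mul_div_cancel_left₀ _ ht.ne', mul_div_cancel_left₀ _ ht.ne', ← mul_sub, enorm_mul, hc]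
  apply le_antisymm
  · refine iSup_le fun R => iSup_le fun hR => ?_
    have hR' : R / t ∈ Set.Ico (r k) (r (k+1)) := by
      refine ⟨?_, ?_⟩
      · rw [le_div_iff₀ ht, mul_comm]; exact hR.1
      · rw [div_lt_iff₀ ht, mul_comm]; exact hR.2
    have e : R = t * (R / t) := by field_simp
    have h0 : 0 ≤ R / t := (hr0 k).trans hR'.1
    calc _ = ‖ballInt (fun ξ => g (t⁻¹ • ξ)) (t * (R / t)) x
          - ballInt (fun ξ => g (t⁻¹ • ξ)) (t * r k) x‖ₑ := by rw [← e]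
      _ = _ := key _ h0
      _ ≤ _ := by
        gcongr
        exact le_iSup₂_of_le (R / t) hR' le_rfl
  · rw [ENNReal.mul_iSup]
    refine iSup_le fun R => ?_
    rw [ENNReal.mul_iSup]
    refine iSup_le fun hR => ?_
    rw [← key R ((hr0 k).trans hR.1)]
    refine le_iSup₂_of_le (t * R) ⟨?_, ?_⟩ le_rfl
    · exact mul_le_mul_of_nonneg_left hR.1 ht.le
    · exact mul_lt_mul_of_pos_left hR.2 ht

/-- **Oscillation estimate on a ball of radius `ρ`.** -/
theorem osc_ball (hd : 1 ≤ Module.finrank ℝ V) {g : V → ℂ} (hg : MemLp g 2 (volume : Measure V))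
    {r : ℕ → ℝ} (hr : StrictMono r) (hr0 : 0 ≤ r 0) {L : ℝ} (hL : ∀ k, r (k+1) - r k ≤ L)
    {ρ : ℝ} (hρ : 0 < ρ) :
    ∫⁻ x in Metric.closedBall (0:V) ρ, osc g r x ^ 2
      ≤ ENNReal.ofReal (24 * rexp π * shellConst V) * ENNReal.ofReal (L * ρ) * ∫⁻ ξ, ‖g ξ‖ₑ ^ 2 := by
  have hrk : ∀ k, 0 ≤ r k := fun k => hr0.trans (hr.monotone (Nat.zero_le k))
  have hK := shellConst_nonneg (V := V)
  set n := Module.finrank ℝ V with hn
  have htn : (0:ℝ) < ρ ^ n := by positivity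
  have hg' : MemLp (fun ξ => g (ρ⁻¹ • ξ)) 2 (volume : Measure V) := memLp_comp_smul hg (inv_pos.2 hρ)
  have h1 := osc_l2 hd hg' (r := fun k => ρ * r k) (L := ρ * L)
    (fun i j hij => mul_lt_mul_of_pos_left (hr hij) hρ) (mul_nonneg hρ.le hr0)
    (fun k => by rw [← mul_sub]; exact mul_le_mul_of_nonneg_left (hL k) hρ.le)
  have hLρ : 0 ≤ L := (sub_nonneg.2 (hr.monotone (Nat.le_succ 0))).trans (hL 0)
  have e1 : ∫⁻ ξ, ‖g (ρ⁻¹ • ξ)‖ₑ ^ 2 = ENNReal.ofReal (ρ ^ n) * ∫⁻ ξ, ‖g ξ‖ₑ ^ 2 := by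
    rw [lintegral_comp_smul_pos (fun ξ => ‖g ξ‖ₑ ^ 2) (inv_pos.2 hρ), ← hn, inv_pow, inv_inv]
  rw [e1] at h1
  -- rewrite the left side
  have e2 : ∫⁻ x, osc (fun ξ => g (ρ⁻¹ • ξ)) (fun k => ρ * r k) x ^ 2 * ENNReal.ofReal (gw x)
      = ENNReal.ofReal (ρ ^ n) * ∫⁻ y, osc g r y ^ 2 * ENNReal.ofReal (gw (ρ⁻¹ • y)) := by
    have : ∀ x : V, osc (fun ξ => g (ρ⁻¹ • ξ)) (fun k => ρ * r k) x ^ 2 * ENNReal.ofReal (gw x)
        = ENNReal.ofReal (ρ ^ n) ^ 2 *
          (fun y => osc g r y ^ 2 * ENNReal.ofReal (gw (ρ⁻¹ • y))) (ρ • x) := by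
      intro x
      simp only
      rw [osc_comp_smul g hρ hrk, mul_pow, smul_smul, inv_mul_cancel₀ hρ.ne', one_smul, mul_assoc]
    simp_rw [this]
    rw [lintegral_const_mul' _ _ (by simp [ENNReal.ofReal_ne_top]),
      lintegral_comp_smul_pos (fun y => osc g r y ^ 2 * ENNReal.ofReal (gw (ρ⁻¹ • y))) hρ,
      ← mul_assoc, sq, mul_assoc (ENNReal.ofReal (ρ ^ n)), ← ENNReal.ofReal_mul htn.le,
      mul_inv_cancel₀ htn.ne', ENNReal.ofReal_one, mul_one]
  rw [e2] at h1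
  have hc0 : ENNReal.ofReal (ρ ^ n) ≠ 0 := (ENNReal.ofReal_pos.2 htn).ne'
  have h2 : ∫⁻ y, osc g r y ^ 2 * ENNReal.ofReal (gw (ρ⁻¹ • y))
      ≤ 24 * ENNReal.ofReal (shellConst V * (ρ * L)) * ∫⁻ ξ, ‖g ξ‖ₑ ^ 2 := by
    rw [← ENNReal.mul_le_mul_iff_right hc0 ENNReal.ofReal_ne_top]
    refine h1.trans (le_of_eq ?_)
    ring
  calc ∫⁻ x in Metric.closedBall (0:V) ρ, osc g r x ^ 2
      ≤ ∫⁻ x in Metric.closedBall (0:V) ρ, ENNReal.ofReal (rexp π) *
          (osc g r x ^ 2 * ENNReal.ofReal (gw (ρ⁻¹ • x))) := by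
        refine setLIntegral_mono' Metric.isClosed_closedBall.measurableSet fun x hx => ?_
        have hx' : ‖x‖ ≤ ρ := by simpa using hx
        have h3 : 1 ≤ rexp π * gw (ρ⁻¹ • x) := by
          unfold gw
          rw [← Real.exp_add]
          apply Real.one_le_exp
          rw [norm_smul, Real.norm_of_nonneg (inv_pos.2 hρ).le]
          have h4 : ρ⁻¹ * ‖x‖ ≤ 1 := by
            rw [inv_mul_le_iff₀ hρ, mul_one]; exact hx'
          have h5 : (ρ⁻¹ * ‖x‖) ^ 2 ≤ 1 := pow_le_one₀ (by positivity) h4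
          have := Real.pi_pos
          nlinarith
        calc osc g r x ^ 2 = osc g r x ^ 2 * 1 := (mul_one _).symm
          _ ≤ osc g r x ^ 2 * ENNReal.ofReal (rexp π * gw (ρ⁻¹ • x)) := by
              gcongr
              rw [← ENNReal.ofReal_one]
              exact ENNReal.ofReal_le_ofReal h3
          _ = _ := by rw [ENNReal.ofReal_mul (Real.exp_pos _).le]; ring
    _ ≤ ∫⁻ x, ENNReal.ofReal (rexp π) * (osc g r x ^ 2 * ENNReal.ofReal (gw (ρ⁻¹ • x))) :=
        setLIntegral_le_lintegral _ _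
    _ = ENNReal.ofReal (rexp π) * ∫⁻ x, osc g r x ^ 2 * ENNReal.ofReal (gw (ρ⁻¹ • x)) :=
        lintegral_const_mul' _ _ ENNReal.ofReal_ne_top
    _ ≤ ENNReal.ofReal (rexp π) * (24 * ENNReal.ofReal (shellConst V * (ρ * L)) * ∫⁻ ξ, ‖g ξ‖ₑ ^ 2) := by
        gcongr
    _ = _ := by
        rw [ENNReal.ofReal_mul hK, mul_comm ρ L, ENNReal.ofReal_mul (by positivity : (0:ℝ) ≤ 24 * rexp π),
          ENNReal.ofReal_mul (by norm_num : (0:ℝ) ≤ 24)]
        have : ENNReal.ofReal 24 = 24 := by simp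
        rw [this]
        ring

end R13.Radii
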