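import Pool.Agent.R13.Radii.Main

/-! Passing from a local estimate over a discrete set of radii to the full maximal estimate. -/

open MeasureTheory Complex Real
open scoped RealInnerProductSpace ENNReal NNReal ComplexConjugate SchwartzMap FourierTransform

set_option linter.unusedSectionVars false

namespace R13.Radii

variable {V : Type*} [NormedAddCommGroup V] [InnerProductSpace ℝ V] [FiniteDimensional ℝ V]
  [MeasurableSpace V] [BorelSpace V]

/-- `sup_{R>0} |S_R|` on the frequency side. -/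
noncomputable def maxBall (g : V → ℂ) (x : V) : ℝ≥0∞ := ⨆ R ∈ Set.Ioi (0:ℝ), ‖ballInt g R x‖ₑ

lemma add_sq_le_four (a b : ℝ≥0∞) : (a + b) ^ 2 ≤ 4 * a ^ 2 + 4 * b ^ 2 := by
  rcases le_total a b with h | h
  · calc (a + b) ^ 2 ≤ (b + b) ^ 2 := by gcongr
      _ = 4 * b ^ 2 := by ring
      _ ≤ _ := le_add_self
  · calc (a + b) ^ 2 ≤ (a + a) ^ 2 := by gcongr
      _ = 4 * a ^ 2 := by ring
      _ ≤ _ := le_self_add

lemma maxBall_le {r : ℕ → ℝ} (hr0 : r 0 = 0)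
    (hrt : Filter.Tendsto r Filter.atTop Filter.atTop) (g : V → ℂ) (x : V) :
    maxBall g x ≤ (⨆ k, ‖ballInt g (r k) x‖ₑ) + osc g r x := by
  refine iSup₂_le fun R hR => ?_
  obtain ⟨k, hk⟩ := exists_block hr0 hrt (le_of_lt hR : (0:ℝ) ≤ R)
  have : ballInt g R x = ballInt g (r k) x + (ballInt g R x - ballInt g (r k) x) := by ring
  rw [this]
  refine (enorm_add_le _ _).trans ?_
  gcongr
  · exact le_iSup (fun k => ‖ballInt g (r k) x‖ₑ) k
  · exact le_iSup_of_le k (le_iSup₂_of_le R hk le_rfl)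

lemma ballInt_zero [Nontrivial V] (g : V → ℂ) (x : V) : ballInt g 0 x = 0 := by
  unfold ballInt
  rw [Metric.closedBall_zero]
  have : (volume : Measure V) {(0:V)} = 0 := measure_singleton _
  rw [Measure.restrict_eq_zero.2 this]
  simp

lemma maxBall_comp_smul (g : V → ℂ) {t : ℝ} (ht : 0 < t) (x : V) :
    maxBall (fun ξ => g (t⁻¹ • ξ)) x
      = ENNReal.ofReal (t ^ Module.finrank ℝ V) * maxBall g (t • x) := by
  unfold maxBall
  have hc : ENNReal.ofReal (t ^ Module.finrank ℝ V)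
      = ‖((t ^ Module.finrank ℝ V : ℝ) : ℂ)‖ₑ := by
    rw [← ofReal_norm, Complex.norm_real, Real.norm_of_nonneg (by positivity)]
  have key : ∀ R : ℝ, 0 < R → ‖ballInt (fun ξ => g (t⁻¹ • ξ)) R x‖ₑ
      = ENNReal.ofReal (t ^ Module.finrank ℝ V) * ‖ballInt g (R / t) (t • x)‖ₑ := by
    intro R hR
    rw [ballInt_comp_smul g ht hR.le, enorm_mul, hc]
  apply le_antisymm
  · refine iSup₂_le fun R hR => ?_
    rw [key R hR]
    gcongr
    exact le_iSup₂_of_le (R / t) (div_pos hR ht) le_rfl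
  · rw [ENNReal.mul_iSup]
    refine iSup_le fun R => ?_
    rw [ENNReal.mul_iSup]
    refine iSup_le fun hR => ?_
    have h := key (t * R) (mul_pos ht hR)
    rw [mul_div_cancel_left₀ _ ht.ne'] at h
    rw [← h]
    exact le_iSup₂_of_le (t * R) (mul_pos ht hR) le_rfl

lemma setLIntegral_comp_smul_pos (F : V → ℝ≥0∞) {t : ℝ} (ht : 0 < t) {ρ : ℝ} (hρ : 0 ≤ ρ) :
    ∫⁻ x in Metric.closedBall (0:V) ρ, F (t • x)
      = ENNReal.ofReal ((t ^ Module.finrank ℝ V)⁻¹) * ∫⁻ x in Metric.closedBall (0:V) (t * ρ), F x := by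
  rw [← lintegral_indicator Metric.isClosed_closedBall.measurableSet,
    ← lintegral_indicator Metric.isClosed_closedBall.measurableSet,
    ← lintegral_comp_smul_pos _ ht]
  congr 1
  funext x
  by_cases h : x ∈ Metric.closedBall (0:V) ρ
  · have h' : t • x ∈ Metric.closedBall (0:V) (t * ρ) := by
      simp only [mem_closedBall_zero_iff] at h ⊢
      rw [norm_smul, Real.norm_of_nonneg ht.le]
      gcongr
    rw [Set.indicator_of_mem h, Set.indicator_of_mem h']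
  · have h' : t • x ∉ Metric.closedBall (0:V) (t * ρ) := by
      simp only [mem_closedBall_zero_iff, not_le] at h ⊢
      rw [norm_smul, Real.norm_of_nonneg ht.le]
      exact mul_lt_mul_of_pos_left h ht
    rw [Set.indicator_of_notMem h, Set.indicator_of_notMem h']

/-- Discrete local estimate implies full local estimate, for one function. -/
lemma local_full (hd : 1 ≤ Module.finrank ℝ V) {g : V → ℂ} (hg : MemLp g 2 (volume : Measure V))
    {r : ℕ → ℝ} (hr : StrictMono r) (hr0 : r 0 = 0) {L : ℝ} (hL : ∀ k, r (k+1) - r k ≤ L)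
    (hrt : Filter.Tendsto r Filter.atTop Filter.atTop)
    {ρ : ℝ} (hρ : 0 < ρ) {C : ℝ≥0∞}
    (hC : ∫⁻ x in Metric.closedBall (0:V) ρ, (⨆ k, ‖ballInt g (r k) x‖ₑ) ^ 2
      ≤ C * ∫⁻ ξ, ‖g ξ‖ₑ ^ 2) :
    ∫⁻ x in Metric.closedBall (0:V) ρ, maxBall g x ^ 2
      ≤ (4 * C + 4 * (ENNReal.ofReal (24 * rexp π * shellConst V) * ENNReal.ofReal (L * ρ)))
        * ∫⁻ ξ, ‖g ξ‖ₑ ^ 2 := by
  have hm : Measurable (fun x => (⨆ k, ‖ballInt g (r k) x‖ₑ) ^ 2) := by
    refine Measurable.pow_const ?_ 2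
    exact Measurable.iSup fun k => (continuous_ballInt_x hg (r k)).enorm.measurable
  calc ∫⁻ x in Metric.closedBall (0:V) ρ, maxBall g x ^ 2
      ≤ ∫⁻ x in Metric.closedBall (0:V) ρ, (4 * (⨆ k, ‖ballInt g (r k) x‖ₑ) ^ 2 + 4 * osc g r x ^ 2) := by
        refine lintegral_mono fun x => ?_
        refine le_trans ?_ (add_sq_le_four _ _)
        gcongr
        exact maxBall_le hr0 hrt g x
    _ = 4 * (∫⁻ x in Metric.closedBall (0:V) ρ, (⨆ k, ‖ballInt g (r k) x‖ₑ) ^ 2)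
        + 4 * ∫⁻ x in Metric.closedBall (0:V) ρ, osc g r x ^ 2 := by
        rw [lintegral_add_left (hm.const_mul 4), lintegral_const_mul' _ _ (by norm_num),
          lintegral_const_mul' _ _ (by norm_num)]
    _ ≤ 4 * (C * ∫⁻ ξ, ‖g ξ‖ₑ ^ 2) + 4 * (ENNReal.ofReal (24 * rexp π * shellConst V)
        * ENNReal.ofReal (L * ρ) * ∫⁻ ξ, ‖g ξ‖ₑ ^ 2) := by
        gcongr
        exact osc_ball hd hg hr hr0.ge hL hρ
    _ = _ := by ring

/-- Letting the ball grow: full local estimates for all dilates give the global one. -/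
lemma global_of_dilates {g : V → ℂ} {ρ : ℝ} (hρ : 0 < ρ) {C : ℝ≥0∞}
    (h : ∀ t : ℝ, 0 < t → ∫⁻ x in Metric.closedBall (0:V) ρ, maxBall (fun ξ => g (t⁻¹ • ξ)) x ^ 2
      ≤ C * ∫⁻ ξ, ‖g (t⁻¹ • ξ)‖ₑ ^ 2) :
    ∫⁻ x, maxBall g x ^ 2 ≤ C * ∫⁻ ξ, ‖g ξ‖ₑ ^ 2 := by
  set n := Module.finrank ℝ V with hn
  have hball : ∀ t : ℝ, 0 < t → ∫⁻ y in Metric.closedBall (0:V) (t * ρ), maxBall g y ^ 2
      ≤ C * ∫⁻ ξ, ‖g ξ‖ₑ ^ 2 := by
    intro t ht
    have htn : (0:ℝ) < t ^ n := by positivity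
    have hc0 : ENNReal.ofReal (t ^ n) ≠ 0 := (ENNReal.ofReal_pos.2 htn).ne'
    have h1 := h t ht
    have e1 : ∫⁻ ξ, ‖g (t⁻¹ • ξ)‖ₑ ^ 2 = ENNReal.ofReal (t ^ n) * ∫⁻ ξ, ‖g ξ‖ₑ ^ 2 := by
      rw [lintegral_comp_smul_pos (fun ξ => ‖g ξ‖ₑ ^ 2) (inv_pos.2 ht), ← hn, inv_pow, inv_inv]
    have e2 : ∫⁻ x in Metric.closedBall (0:V) ρ, maxBall (fun ξ => g (t⁻¹ • ξ)) x ^ 2
        = ENNReal.ofReal (t ^ n) * ∫⁻ y in Metric.closedBall (0:V) (t * ρ), maxBall g y ^ 2 := by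
      have : ∀ x : V, maxBall (fun ξ => g (t⁻¹ • ξ)) x ^ 2
          = ENNReal.ofReal (t ^ n) ^ 2 * (fun y => maxBall g y ^ 2) (t • x) := by
        intro x
        simp only
        rw [maxBall_comp_smul g ht, mul_pow]
      simp_rw [this]
      rw [lintegral_const_mul' _ _ (by simp [ENNReal.ofReal_ne_top]),
        setLIntegral_comp_smul_pos (fun y => maxBall g y ^ 2) ht hρ.le,
        ← mul_assoc, sq, mul_assoc (ENNReal.ofReal (t ^ n)), ← ENNReal.ofReal_mul htn.le,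
        mul_inv_cancel₀ htn.ne', ENNReal.ofReal_one, mul_one]
    rw [e1, e2] at h1
    rw [← ENNReal.mul_le_mul_iff_right hc0 ENNReal.ofReal_ne_top]
    refine h1.trans (le_of_eq ?_)
    ring
  have hU : (⋃ N : ℕ, Metric.closedBall (0:V) (((N:ℝ) + 1) * ρ)) = Set.univ := by
    rw [Set.eq_univ_iff_forall]
    intro x
    obtain ⟨N, hN⟩ := exists_nat_gt (‖x‖ / ρ)
    refine Set.mem_iUnion.2 ⟨N, ?_⟩
    rw [mem_closedBall_zero_iff]
    rw [div_lt_iff₀ hρ] at hN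
    nlinarith
  have hdir : Directed (· ⊆ ·) (fun N : ℕ => Metric.closedBall (0:V) (((N:ℝ) + 1) * ρ)) := by
    apply Monotone.directed_le
    intro N M hNM
    apply Metric.closedBall_subset_closedBall
    have : (N:ℝ) ≤ M := by exact_mod_cast hNM
    gcongr
  calc ∫⁻ x, maxBall g x ^ 2 = ∫⁻ x in Set.univ, maxBall g x ^ 2 := by rw [setLIntegral_univ]
    _ = ⨆ N : ℕ, ∫⁻ x in Metric.closedBall (0:V) (((N:ℝ) + 1) * ρ), maxBall g x ^ 2 := by
        rw [← hU, setLIntegral_iUnion_of_directed _ hdir]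
    _ ≤ _ := iSup_le fun N => hball _ (by positivity)

/-- Dilation of a Schwartz function. -/
noncomputable def dil (t : ℝ) (ht : 0 < t) (g : 𝓢(V, ℂ)) : 𝓢(V, ℂ) :=
  SchwartzMap.compCLMOfContinuousLinearEquiv ℂ
    (ContinuousLinearEquiv.smulLeft (R₁ := ℝ) (M₁ := V) (Units.mk0 t⁻¹ (inv_pos.2 ht).ne')) g

lemma dil_apply (t : ℝ) (ht : 0 < t) (g : 𝓢(V, ℂ)) (x : V) : dil t ht g x = g (t⁻¹ • x) := by
  rfl

lemma plancherel_lintegral (f : 𝓢(V, ℂ)) : ∫⁻ ξ, ‖(𝓕 f) ξ‖ₑ ^ 2 = ∫⁻ x, ‖f x‖ₑ ^ 2 := by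
  have key : ∀ h : 𝓢(V, ℂ), ∫⁻ ξ, ‖h ξ‖ₑ ^ 2 = ENNReal.ofReal (∫ ξ, ‖h ξ‖ ^ 2) := by
    intro h
    rw [ofReal_integral_eq_lintegral_ofReal]
    · congr 1
      funext x
      rw [ENNReal.ofReal_pow (norm_nonneg _), ofReal_norm]
    · have := (h.memLp 2 (volume : Measure V)).integrable_norm_pow (by norm_num)
      simpa using this
    · exact Filter.Eventually.of_forall fun x => by positivity
  rw [key, key, SchwartzMap.integral_norm_sq_fourier]

end R13.Radii
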