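import Pool.Agent.R13.Radii.Local

/-! The Gaussian mass of a spherical shell is at most a constant times its width. -/

open MeasureTheory Complex Real
open scoped RealInnerProductSpace ENNReal NNReal ComplexConjugate

set_option linter.unusedSectionVars false

namespace R13.Radii

variable {V : Type*} [NormedAddCommGroup V] [InnerProductSpace ℝ V] [FiniteDimensional ℝ V]
  [MeasurableSpace V] [BorelSpace V]

/-- The half-open spherical shell `a < ‖ξ‖ ≤ b`. -/
def shell (V : Type*) [NormedAddCommGroup V] (a b : ℝ) : Set V := {ξ | a < ‖ξ‖ ∧ ‖ξ‖ ≤ b}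

lemma measurableSet_shell (a b : ℝ) : MeasurableSet (shell V a b) :=
  (measurableSet_lt measurable_const measurable_norm).inter
    (measurableSet_le measurable_norm measurable_const)

lemma shell_subset_ball (a b : ℝ) : shell V a b ⊆ Metric.closedBall 0 b := by
  intro ξ h
  simpa using h.2

/-- Wider Gaussian. -/
noncomputable def gw2 (x : V) : ℝ := rexp (-(π/2) * ‖x‖ ^ 2)

lemma continuous_gw2 : Continuous (gw2 : V → ℝ) := by
  unfold gw2; fun_prop

lemma integral_gw2 : ∫ x : V, gw2 x = 2 ^ (Module.finrank ℝ V / 2 : ℝ) := by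
  unfold gw2
  rw [GaussianFourier.integral_rexp_neg_mul_sq_norm (by have := Real.pi_pos; positivity)]
  congr 1
  have := Real.pi_pos.ne'
  field_simp

lemma integrable_gw2 : Integrable (gw2 : V → ℝ) := by
  have h := (GaussianFourier.integrable_cexp_neg_mul_sq_norm_add (V := V)
    (b := ((π/2:ℝ):ℂ)) (by rw [Complex.ofReal_re]; have := Real.pi_pos; positivity) 0 0).norm
  refine h.congr (Filter.Eventually.of_forall fun x => ?_)
  simp only [gw2, Complex.norm_exp]
  congr 1
  simp only [zero_mul, add_zero]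
  rw [← Complex.ofReal_neg, ← Complex.ofReal_pow, ← Complex.ofReal_mul, Complex.ofReal_re]

lemma gw_diff (a b δ : ℝ) (ha : 0 ≤ a) (hb : 0 ≤ b) (hδ : 0 ≤ δ) (hδ1 : δ ≤ 1) (hab : b ≤ a + δ) :
    rexp (-π * a ^ 2) - rexp (-π * b ^ 2) ≤ 2 * π * δ * rexp (-(π/2) * a ^ 2) := by
  have hpi := Real.pi_pos
  have h3 : (3:ℝ) < π := Real.pi_gt_three
  have e1 : rexp (-π * b ^ 2) = rexp (-π * a ^ 2) * rexp (-(π * (b^2 - a^2))) := by
    rw [← Real.exp_add]; congr 1; ring
  have e2 : 1 - π * (b^2 - a^2) ≤ rexp (-(π * (b^2 - a^2))) := by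
    have := Real.add_one_le_exp (-(π * (b^2 - a^2)))
    linarith
  have e3 : b^2 - a^2 ≤ δ * (2 * a + 1) := by
    nlinarith [mul_nonneg hδ (sub_nonneg.2 hδ1), mul_nonneg ha hδ]
  have e4 : 2 * a + 1 ≤ 2 * rexp ((π/2) * a^2) := by
    have := Real.add_one_le_exp ((π/2) * a^2)
    nlinarith [sq_nonneg (a - 1)]
  have e5 : rexp (-π * a ^ 2) = rexp (-(π/2) * a ^ 2) * rexp (-(π/2) * a ^ 2) := by
    rw [← Real.exp_add]; congr 1; ring
  have e6 : rexp (-(π/2) * a ^ 2) * rexp ((π/2) * a^2) = 1 := by
    rw [← Real.exp_add]; simp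
  have p1 := Real.exp_pos (-π * a ^ 2)
  have p2 := Real.exp_pos (-(π/2) * a ^ 2)
  calc rexp (-π * a ^ 2) - rexp (-π * b ^ 2)
      = rexp (-π * a ^ 2) * (1 - rexp (-(π * (b^2 - a^2)))) := by rw [e1]; ring
    _ ≤ rexp (-π * a ^ 2) * (π * (b^2 - a^2)) := by
        apply mul_le_mul_of_nonneg_left _ p1.le; linarith
    _ ≤ rexp (-π * a ^ 2) * (π * (δ * (2 * rexp ((π/2) * a^2)))) := by
        apply mul_le_mul_of_nonneg_left _ p1.le
        apply mul_le_mul_of_nonneg_left _ hpi.le
        exact e3.trans (mul_le_mul_of_nonneg_left e4 hδ)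
    _ = 2 * π * δ * rexp (-(π/2) * a ^ 2) * (rexp (-(π/2) * a ^ 2) * rexp ((π/2) * a^2)) := by
        rw [e5]; ring
    _ = 2 * π * δ * rexp (-(π/2) * a ^ 2) := by rw [e6, mul_one]

/-- Volume of the unit ball (as a real). -/
noncomputable def vb (V : Type*) [NormedAddCommGroup V] [InnerProductSpace ℝ V]
    [FiniteDimensional ℝ V] [MeasurableSpace V] [BorelSpace V] : ℝ :=
  (volume (Metric.closedBall (0:V) 1)).toReal

lemma vb_nonneg : 0 ≤ vb V := ENNReal.toReal_nonneg

lemma volume_ball (R : ℝ) (hR : 0 ≤ R) :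
    (volume (Metric.closedBall (0:V) R)).toReal = R ^ (Module.finrank ℝ V) * vb V := by
  rw [Measure.addHaar_closedBall' _ _ hR, ENNReal.toReal_mul, ENNReal.toReal_ofReal (by positivity)]
  rfl

/-- The shell constant. -/
noncomputable def shellConst (V : Type*) [NormedAddCommGroup V] [InnerProductSpace ℝ V]
    [FiniteDimensional ℝ V] [MeasurableSpace V] [BorelSpace V] : ℝ :=
  (Module.finrank ℝ V : ℝ) * (1 + vb V) + 2 * π * 2 ^ (Module.finrank ℝ V / 2 : ℝ) + 1

lemma ball_gauss_le (hd : 1 ≤ Module.finrank ℝ V) (ξ : V) (R : ℝ) (hR : 0 ≤ R) :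
    ∫ η in Metric.closedBall (0:V) R, gw (ξ - η) ≤ R * (1 + vb V) := by
  have hint : Integrable (fun η : V => gw (ξ - η)) := integrable_gw.comp_sub_left ξ
  have h1 : ∫ η in Metric.closedBall (0:V) R, gw (ξ - η) ≤ 1 := by
    calc ∫ η in Metric.closedBall (0:V) R, gw (ξ - η) ≤ ∫ η, gw (ξ - η) :=
          setIntegral_le_integral hint (Filter.Eventually.of_forall fun η => (gw_pos _).le)
      _ = ∫ η : V, gw η := integral_sub_left_eq_self gw volume ξ
      _ = 1 := integral_gw
  have h2 : ∫ η in Metric.closedBall (0:V) R, gw (ξ - η) ≤ R ^ (Module.finrank ℝ V) * vb V := by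
    calc ∫ η in Metric.closedBall (0:V) R, gw (ξ - η) ≤ ∫ η in Metric.closedBall (0:V) R, (1:ℝ) := by
          apply setIntegral_mono hint.integrableOn
          · exact (integrableOn_const (hs := (measure_closedBall_lt_top).ne))
          · intro η; exact gw_le_one _
      _ = R ^ (Module.finrank ℝ V) * vb V := by
          rw [← volume_ball R hR]; simp [Measure.real]
  have hv := vb_nonneg (V := V)
  rcases le_total 1 R with h | h
  · nlinarith
  · have : R ^ (Module.finrank ℝ V) ≤ R := by
      calc R ^ (Module.finrank ℝ V) ≤ R ^ 1 := pow_le_pow_of_le_one hR h hd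
        _ = R := pow_one R
    nlinarith

/-- **Shell estimate.** -/
theorem shell_gauss (hd : 1 ≤ Module.finrank ℝ V) (ξ : V) (a b : ℝ) (ha : 0 ≤ a) (hab : a ≤ b) :
    ∫⁻ η in shell V a b, ENNReal.ofReal (gw (ξ - η)) ≤ ENNReal.ofReal (shellConst V * (b - a)) := by
  have hint : Integrable (fun η : V => gw (ξ - η)) := integrable_gw.comp_sub_left ξ
  rw [← ofReal_integral_eq_lintegral_ofReal hint.integrableOn
    (Filter.Eventually.of_forall fun η => (gw_pos _).le)]
  apply ENNReal.ofReal_le_ofReal
  have hv := vb_nonneg (V := V)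
  have hpi := Real.pi_pos
  have hd' : (1:ℝ) ≤ (Module.finrank ℝ V : ℝ) := by exact_mod_cast hd
  have h2p : (0:ℝ) < 2 ^ (Module.finrank ℝ V / 2 : ℝ) := by positivity
  have hK1 : 1 ≤ shellConst V := by
    unfold shellConst
    have : 0 ≤ (Module.finrank ℝ V : ℝ) * (1 + vb V) := by positivity
    have : 0 ≤ 2 * π * 2 ^ (Module.finrank ℝ V / 2 : ℝ) := by positivity
    linarith
  -- total mass bound
  have htot : ∫ η in shell V a b, gw (ξ - η) ≤ 1 := by
    calc ∫ η in shell V a b, gw (ξ - η) ≤ ∫ η, gw (ξ - η) :=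
          setIntegral_le_integral hint (Filter.Eventually.of_forall fun η => (gw_pos _).le)
      _ = ∫ η : V, gw η := integral_sub_left_eq_self gw volume ξ
      _ = 1 := integral_gw
  rcases le_or_gt 1 (b - a) with h1 | h1
  · nlinarith
  rcases eq_or_lt_of_le hab with hab' | hab'
  · have : shell V a b = ∅ := by
      ext η; simp only [shell, Set.mem_ofPred_eq, Set.mem_empty_iff_false, iff_false, not_and, not_le]
      intro h; rw [← hab']; exact h
    rw [this]; simp [hab']
  have hb : 0 < b := lt_of_le_of_lt ha hab'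
  rcases eq_or_lt_of_le ha with ha0 | ha0
  · -- a = 0
    subst ha0
    calc ∫ η in shell V 0 b, gw (ξ - η) ≤ ∫ η in Metric.closedBall (0:V) b, gw (ξ - η) := by
          apply setIntegral_mono_set hint.integrableOn
            (Filter.Eventually.of_forall fun η => (gw_pos _).le)
          exact (shell_subset_ball 0 b).eventuallyLE
      _ ≤ b * (1 + vb V) := ball_gauss_le hd ξ b hb.le
      _ ≤ shellConst V * (b - 0) := by
          have : (1 + vb V) ≤ shellConst V := by
            unfold shellConst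
            have : 0 ≤ 2 * π * 2 ^ (Module.finrank ℝ V / 2 : ℝ) := by positivity
            nlinarith
          nlinarith
  · -- 0 < a < b
    set l : ℝ := a / b with hl
    have hl0 : 0 < l := div_pos ha0 hb
    have hl1 : l < 1 := (div_lt_one hb).2 hab'
    have hlb : l * b = a := by rw [hl]; field_simp
    have hshell : shell V a b = Metric.closedBall (0:V) b \ Metric.closedBall (0:V) a := by
      ext η; simp [shell, and_comm]
    have hd1 : ∫ η in shell V a b, gw (ξ - η)
        = (∫ η in Metric.closedBall (0:V) b, gw (ξ - η))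
          - ∫ η in Metric.closedBall (0:V) a, gw (ξ - η) := by
      rw [hshell]
      exact setIntegral_sdiff Metric.isClosed_closedBall.measurableSet hint.integrableOn
        (Metric.closedBall_subset_closedBall hab)
    have hsc : ∫ η in Metric.closedBall (0:V) a, gw (ξ - η)
        = ∫ η in Metric.closedBall (0:V) b, l ^ (Module.finrank ℝ V) * gw (ξ - l • η) := by
      rw [integral_const_mul]
      rw [Measure.setIntegral_comp_smul_of_pos volume (fun η => gw (ξ - η)) _ hl0]
      rw [smul_closedBall _ _ hb.le, smul_zero, Real.norm_of_nonneg hl0.le, hlb, smul_eq_mul,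
        ← mul_assoc, mul_inv_cancel₀ (by positivity), one_mul]
    have hint2 : Integrable (fun η : V => l ^ (Module.finrank ℝ V) * gw (ξ - l • η)) := by
      apply Integrable.const_mul
      have := (integrable_comp_smul_iff volume (fun η : V => gw (ξ - η)) hl0.ne').2 hint
      exact this
    rw [hd1, hsc, ← integral_sub hint.integrableOn hint2.integrableOn]
    -- pointwise bound on the ball
    have hpt : ∀ η ∈ Metric.closedBall (0:V) b,
        gw (ξ - η) - l ^ (Module.finrank ℝ V) * gw (ξ - l • η)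
        ≤ ((Module.finrank ℝ V : ℝ) * (1 - l)) * gw (ξ - η)
          + (2 * π * (b - a)) * gw2 (ξ - η) := by
      intro η hη
      have hη' : ‖η‖ ≤ b := by simpa using hη
      have hb1 : ‖ξ - l • η‖ ≤ ‖ξ - η‖ + (b - a) := by
        have : ξ - l • η = (ξ - η) + (1 - l) • η := by rw [sub_smul, one_smul]; abel
        rw [this]
        refine (norm_add_le _ _).trans ?_
        gcongr
        rw [norm_smul, Real.norm_of_nonneg (by linarith)]
        calc (1 - l) * ‖η‖ ≤ (1 - l) * b := by
              apply mul_le_mul_of_nonneg_left hη' (by linarith)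
          _ = b - a := by rw [sub_mul, one_mul, hlb]
      have hg := gw_diff ‖ξ - η‖ ‖ξ - l • η‖ (b - a) (norm_nonneg _) (norm_nonneg _)
        (by linarith) h1.le hb1
      have hbern : 1 - l ^ (Module.finrank ℝ V) ≤ (Module.finrank ℝ V : ℝ) * (1 - l) := by
        have := one_add_mul_le_pow (a := l - 1) (by linarith) (Module.finrank ℝ V)
        have e : 1 + (l - 1) = l := by ring
        rw [e] at this
        linarith
      have hln : l ^ (Module.finrank ℝ V) ≤ 1 := pow_le_one₀ hl0.le hl1.le
      have hln0 : 0 < l ^ (Module.finrank ℝ V) := by positivity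
      have g1 : gw (ξ - η) = rexp (-π * ‖ξ - η‖ ^ 2) := rfl
      have g2 : gw (ξ - l • η) = rexp (-π * ‖ξ - l • η‖ ^ 2) := rfl
      have g3 : gw2 (ξ - η) = rexp (-(π/2) * ‖ξ - η‖ ^ 2) := rfl
      have g4 : 0 < gw2 (ξ - η) := Real.exp_pos _
      have g5 := gw_pos (ξ - η)
      rw [← g1, ← g2, ← g3] at hg
      have q1 : (1 - l ^ (Module.finrank ℝ V)) * gw (ξ - η)
          ≤ ((Module.finrank ℝ V : ℝ) * (1 - l)) * gw (ξ - η) :=
        mul_le_mul_of_nonneg_right hbern g5.le
      have q2 : l ^ (Module.finrank ℝ V) * (gw (ξ - η) - gw (ξ - l • η))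
          ≤ (2 * π * (b - a)) * gw2 (ξ - η) := by
        have hnn : 0 ≤ 2 * π * (b - a) * gw2 (ξ - η) := by
          have : 0 ≤ b - a := by linarith
          positivity
        calc l ^ (Module.finrank ℝ V) * (gw (ξ - η) - gw (ξ - l • η))
            ≤ l ^ (Module.finrank ℝ V) * (2 * π * (b - a) * gw2 (ξ - η)) :=
              mul_le_mul_of_nonneg_left hg hln0.le
          _ ≤ 1 * (2 * π * (b - a) * gw2 (ξ - η)) := mul_le_mul_of_nonneg_right hln hnn
          _ = _ := one_mul _
      linarith
    have hint3 : Integrable (fun η : V => gw2 (ξ - η)) := integrable_gw2.comp_sub_left ξ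
    have hmono : ∫ η in Metric.closedBall (0:V) b,
          (gw (ξ - η) - l ^ (Module.finrank ℝ V) * gw (ξ - l • η))
        ≤ ∫ η in Metric.closedBall (0:V) b, (((Module.finrank ℝ V : ℝ) * (1 - l)) * gw (ξ - η)
          + (2 * π * (b - a)) * gw2 (ξ - η)) := by
      apply setIntegral_mono_on (hint.sub hint2).integrableOn
        ((hint.const_mul _).add (hint3.const_mul _)).integrableOn
        Metric.isClosed_closedBall.measurableSet hpt
    refine hmono.trans ?_
    rw [integral_add (hint.const_mul _).integrableOn (hint3.const_mul _).integrableOn,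
      integral_const_mul, integral_const_mul]
    have r1 : ∫ η in Metric.closedBall (0:V) b, gw (ξ - η) ≤ b * (1 + vb V) :=
      ball_gauss_le hd ξ b hb.le
    have r2 : ∫ η in Metric.closedBall (0:V) b, gw2 (ξ - η) ≤ 2 ^ (Module.finrank ℝ V / 2 : ℝ) := by
      calc ∫ η in Metric.closedBall (0:V) b, gw2 (ξ - η) ≤ ∫ η, gw2 (ξ - η) :=
            setIntegral_le_integral hint3 (Filter.Eventually.of_forall fun η => (Real.exp_pos _).le)
        _ = ∫ η : V, gw2 η := integral_sub_left_eq_self gw2 volume ξ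
        _ = _ := integral_gw2
    have s1 : ((Module.finrank ℝ V : ℝ) * (1 - l)) * ∫ η in Metric.closedBall (0:V) b, gw (ξ - η)
        ≤ ((Module.finrank ℝ V : ℝ) * (1 - l)) * (b * (1 + vb V)) :=
      mul_le_mul_of_nonneg_left r1 (mul_nonneg (by linarith) (by linarith))
    have s2 : (2 * π * (b - a)) * ∫ η in Metric.closedBall (0:V) b, gw2 (ξ - η)
        ≤ (2 * π * (b - a)) * 2 ^ (Module.finrank ℝ V / 2 : ℝ) :=
      mul_le_mul_of_nonneg_left r2 (mul_nonneg (by positivity) (by linarith))
    have s3 : ((Module.finrank ℝ V : ℝ) * (1 - l)) * (b * (1 + vb V))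
        = ((Module.finrank ℝ V : ℝ) * (1 + vb V)) * (b - a) := by
      have : (1 - l) * b = b - a := by rw [sub_mul, one_mul, hlb]
      calc _ = ((Module.finrank ℝ V : ℝ) * (1 + vb V)) * ((1 - l) * b) := by ring
        _ = _ := by rw [this]
    unfold shellConst
    nlinarith

end R13.Radii
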